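import Pool.Agent.H487.NZ.XInt

/-!
# The averages over the right half line, with a bound to the right of the critical line

The same analysis as in `SB.Core`, at the points `1/2 + r + iy`, `r ≥ r₁`.
-/

set_option autoImplicit false

open MeasureTheory Set Filter Topology Metric
open scoped ComplexConjugate

namespace Pool.Agent.H487.MI

open NB NZ

/-- the situation: zero free to the right of `1/2 + β` near height `y`, and bounded by `φ` to the left of it;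
we look at the points with `r ≥ r₁` -/
structure XV (X : ℂ → ℂ) (a K M ℓ y τ β ε R η T₀ r₁ : ℝ) (φ : ℝ → ℝ) : Prop where
  diff : Differentiable ℂ X
  slow : SlowGrowth X
  fe : ∃ ε : ℂ, ‖ε‖ = 1 ∧ ∀ s, X s = ε * conj (X (1 - conj s))
  hK : 1 ≤ K
  hM : 0 < M
  upx : ∀ u v : ℝ, |v| ≤ 1 → ‖X (pt y u v)‖ ≤ M * Real.exp (ℓ * max |u| a + K * (1 + u ^ 2 + v ^ 2))
  G : HGood X M ℓ y 0 β ε R 1
  strip : ∀ u v : ℝ, 0 ≤ u → u ≤ β → |v| ≤ 1 → ‖X (pt y u v)‖ ≤ M * Real.exp (ℓ * φ u + 2 * ε * ℓ)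
  hφ : ∀ u r : ℝ, 0 ≤ u → u ≤ β → r₁ ≤ r → r ≤ a → φ u + η ≤ (u - r) ^ 2 / (2 * τ) + (r + τ / 2)
  ha1 : 1 ≤ a
  hη : 0 < η
  hη1 : η ≤ 1
  hτ0 : 0 < τ
  hτT : τ ≤ T₀
  hβ : 0 < β
  hr₁ : -(η / 16) ≤ r₁
  hβτ : β + 7 * η / 16 ≤ τ + r₁
  hβa : β ≤ a + 1
  hR : R = a + T₀ + 2
  hε : 0 < ε
  hε1 : ε ≤ 1
  hεT : ε * (64 * T₀) ≤ 1
  hεT2 : ε * (64 * T₀ ^ 2) ≤ 1
  hεη : ε * (3 + 4 * T₀) ≤ η / 64
  hℓ : 1 ≤ ℓ
  hℓη : 64 ≤ ℓ * η
  hℓη2 : 1024 * T₀ ≤ ℓ * η ^ 2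
  hℓK : 64 * T₀ * (K * (4 + 2 * (a + T₀) ^ 2) + 3) ≤ ℓ
  hℓK2 : 8 * K * T₀ * R ^ 2 ≤ ℓ
  hk1 : (a + 2) * (((2 * a + 4) / τ + 2) * ℓ + 1) * Real.exp (-(η * ℓ / 4)) ≤
    Real.sqrt (4 * Real.pi * (τ / (2 * ℓ))) / 16
  hk2 : Real.sqrt (4 * Real.pi * (τ / (2 * ℓ))) ≤ 1
  hk3 : 200 ≤ ℓ * Real.sqrt (4 * Real.pi * (τ / (2 * ℓ)))

variable {X : ℂ → ℂ} {a K M ℓ y τ β ε R η T₀ r₁ r : ℝ} {φ : ℝ → ℝ} {w : ℂ}

lemma XV.ha (C : XV X a K M ℓ y τ β ε R η T₀ r₁ φ) : 0 < a := by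
  have := C.ha1
  linarith

lemma XV.small (C : XV X a K M ℓ y τ β ε R η T₀ r₁ φ) : ε * τ ≤ 1 / 64 ∧ ε * τ ≤ η / 64 := by
  have h1 := C.hε
  have h2 := C.hτ0
  have h3 := C.hτT
  have h4 := C.hεT
  have h5 := C.hεη
  have h6 := C.hη
  have h7 : ε * τ ≤ ε * T₀ := by gcongr
  constructor
  · linarith
  · have : 0 ≤ ε * T₀ := mul_nonneg h1.le (by linarith)
    linarith

lemma XV.exists_sp (C : XV X a K M ℓ y τ β ε R η T₀ r₁ φ) (h1 : r₁ ≤ r) (h2 : r ≤ a) :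
    ∃ w, SP X M ℓ y τ ε r w := by
  obtain ⟨s1, s2⟩ := C.small
  have c0 := C.hr₁
  have c1 := C.hη
  have c2 := C.hτ0
  have c3 := C.hτT
  have c4 := C.hβτ
  have c5 := C.hR
  have c6 := C.hℓ
  have c7 := C.ha
  have hr : |(0 : ℝ)| = 0 := abs_zero
  obtain ⟨w, hw1, hw2⟩ := saddleX C.G (by linarith : 0 < τ) (by linarith) C.hε (by linarith) (s := pt y r 0)
    (by rw [pt_re]; linarith) (by rw [pt_re]; linarith) (by rw [pt_im]; simp; linarith)
  exact ⟨w, hw1, hw2⟩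

/-- size at the saddle point -/
lemma size_sp (C : XV X a K M ℓ y τ β ε R η T₀ r₁ φ) (S : SP X M ℓ y τ ε r w) (h1 : r₁ ≤ r) (h2 : r ≤ a) :
    M * Real.exp (ℓ * (r + τ / 2) - ε * (1 + 3 * τ) * ℓ) ≤ ‖X w * gk (τ / (2 * ℓ)) (pt y r 0) w‖ := by
  obtain ⟨s1, s2⟩ := C.small
  have c0 := C.hr₁
  have c1 := C.hη
  have c2 := C.hτ0
  have c3 := C.hτT
  have c4 := C.hβτ
  have c5 := C.hR
  have c6 := C.hℓ
  have c7 := C.ha
  have c8 := C.hε
  have c9 := C.hε1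
  have hM := C.hM
  have hτ0 : 0 < τ := by linarith
  obtain ⟨p1, p2⟩ := S.pos
  obtain ⟨q1, q2⟩ := abs_le.mp p1
  rw [norm_mul, gk_norm, pt_re, pt_im, add_zero]
  have hX := C.G.lo (w.re - 1 / 2) (w.im - y) (by linarith) (by linarith) (by linarith)
  rw [← pt_eq] at hX
  refine le_trans ?_ (mul_le_mul_of_nonneg_right hX (Real.exp_pos _).le)
  rw [mul_assoc M, ← Real.exp_add]
  refine mul_le_mul_of_nonneg_left (Real.exp_le_exp.mpr ?_) hM.le
  have e : ((w.re - (1 / 2 + r)) ^ 2 - (w.im - y) ^ 2) / (4 * (τ / (2 * ℓ))) =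
      ((w.re - (1 / 2 + r)) ^ 2 - (w.im - y) ^ 2) * (ℓ / (2 * τ)) := by field_simp; ring
  rw [e]
  have h3 : (w.re - (1 / 2 + r)) ^ 2 ≤ τ ^ 2 * (1 + 3 * ε) := by
    have h4 : w.re - (1 / 2 + r) ≤ τ * (1 + ε) := by linarith
    have h5 : 0 ≤ w.re - (1 / 2 + r) := by
      have : ε * τ ≤ 1 * τ := by gcongr
      linarith
    have h6 := pow_le_pow_left₀ h5 h4 2
    have h7 := mul_nonneg (sq_nonneg τ) (mul_nonneg c8.le (sub_nonneg.mpr c9))
    linarith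
  have h7 : ((w.re - (1 / 2 + r)) ^ 2 - (w.im - y) ^ 2) * (ℓ / (2 * τ)) ≤ τ * ℓ / 2 * (1 + 3 * ε) := by
    calc ((w.re - (1 / 2 + r)) ^ 2 - (w.im - y) ^ 2) * (ℓ / (2 * τ)) ≤ (τ ^ 2 * (1 + 3 * ε)) * (ℓ / (2 * τ)) := by
          refine mul_le_mul_of_nonneg_right ?_ (by positivity)
          linarith [sq_nonneg (w.im - y)]
      _ = _ := by field_simp
  have h8 : ℓ * (r + τ - ε * τ) ≤ ℓ * (w.re - 1 / 2 + 0 / 2) := by
    refine mul_le_mul_of_nonneg_left ?_ (by linarith)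
    linarith
  linarith [mul_pos c8 (mul_pos hτ0 (by linarith : 0 < ℓ))]

/-- the elementary estimate in the strip -/
lemma strip_small (C : XV X a K M ℓ y τ β ε R η T₀ r₁ φ) (S : SP X M ℓ y τ ε r w) (h1 : r₁ ≤ r) (h2 : r ≤ a)
    {u v : ℝ} (hu0 : 0 ≤ u) (hu : u ≤ β) (hv : |v| ≤ ε * τ) :
    ‖X (pt y u v) * gk (τ / (2 * ℓ)) (pt y r 0) (pt y u v)‖ ≤
      ‖X w * gk (τ / (2 * ℓ)) (pt y r 0) w‖ * Real.exp (-(η * ℓ / 4)) := by
  obtain ⟨s1, s2⟩ := C.small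
  have c0 := C.hr₁
  have c1 := C.hη
  have c2 := C.hτ0
  have c3 := C.hτT
  have c4 := C.hβτ
  have c6 := C.hℓ
  have c8 := C.hε
  have c9 := C.hε1
  have c10 := C.hεη
  have hM := C.hM
  have hτ0 : 0 < τ := by linarith
  refine le_trans ?_ (mul_le_mul_of_nonneg_right (size_sp C S h1 h2) (Real.exp_pos _).le)
  rw [norm_mul, gk_norm, pt_re, pt_im, pt_re, pt_im, add_zero]
  have hX := C.strip u v hu0 hu (by linarith)
  have e : ((1 / 2 + u - (1 / 2 + r)) ^ 2 - (y + v - y) ^ 2) / (4 * (τ / (2 * ℓ))) =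
      ((u - r) ^ 2 - v ^ 2) * (ℓ / (2 * τ)) := by field_simp; ring
  rw [e]
  have h3 : v ^ 2 * (ℓ / (2 * τ)) ≤ ε * τ * ℓ := by
    have h4 : v ^ 2 ≤ (ε * τ) ^ 2 := by rw [← sq_abs]; exact pow_le_pow_left₀ (abs_nonneg _) hv 2
    calc v ^ 2 * (ℓ / (2 * τ)) ≤ (ε * τ) ^ 2 * (ℓ / (2 * τ)) := by gcongr
      _ = (ε / 2) * (ε * τ * ℓ) := by field_simp
      _ ≤ 1 * (ε * τ * ℓ) := by gcongr; linarith
      _ = _ := one_mul _
  have h5 : 0 ≤ (u - r) ^ 2 * (ℓ / (2 * τ)) := by positivity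
  have hφu := C.hφ u r hu0 hu h1 h2
  have e5 : (u - r) ^ 2 * (ℓ / (2 * τ)) = ℓ * ((u - r) ^ 2 / (2 * τ)) := by ring
  calc ‖X (pt y u v)‖ * Real.exp (-(((u - r) ^ 2 - v ^ 2) * (ℓ / (2 * τ))))
      ≤ (M * Real.exp (ℓ * φ u + 2 * ε * ℓ)) * Real.exp (-((u - r) ^ 2 * (ℓ / (2 * τ))) + ε * τ * ℓ) := by
        refine mul_le_mul hX (Real.exp_le_exp.mpr ?_) (Real.exp_pos _).le (by positivity)
        linarith
    _ = M * Real.exp (ℓ * φ u + 2 * ε * ℓ + (-((u - r) ^ 2 * (ℓ / (2 * τ))) + ε * τ * ℓ)) := by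
        rw [mul_assoc, ← Real.exp_add]
    _ ≤ M * Real.exp (ℓ * (r + τ / 2) - ε * (1 + 3 * τ) * ℓ + -(η * ℓ / 4)) := by
        refine mul_le_mul_of_nonneg_left (Real.exp_le_exp.mpr ?_) hM.le
        have h6 : ε * (3 + 4 * τ) ≤ η / 64 := by
          refine le_trans ?_ c10
          gcongr
        have h7 : φ u - (u - r) ^ 2 / (2 * τ) + ε * (3 + 4 * τ) + η / 4 ≤ r + τ / 2 := by linarith
        rw [e5]
        linarith [mul_le_mul_of_nonneg_left h7 (by linarith : (0:ℝ) ≤ ℓ)]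
    _ = _ := by rw [Real.exp_add _ (-(η * ℓ / 4))]; ring

/-- the pointwise estimate to the right of `1/2 + β` -/
lemma right_pt (C : XV X a K M ℓ y τ β ε R η T₀ r₁ φ) (S : SP X M ℓ y τ ε r w) (h1 : r₁ ≤ r) (h2 : r ≤ a)
    {x : ℝ} (hx : 1 / 2 + β ≤ w.re + x) :
    ‖X (w + x) * gk (τ / (2 * ℓ)) (pt y r 0) (w + x) -
      (X w * gk (τ / (2 * ℓ)) (pt y r 0) w) * ((Real.exp (-(x ^ 2 / (4 * (τ / (2 * ℓ))))) : ℝ) : ℂ)‖ ≤
      ‖X w * gk (τ / (2 * ℓ)) (pt y r 0) w‖ * (1 / 8) * Real.exp (-(x ^ 2 / (16 * (τ / (2 * ℓ))))) := by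
  obtain ⟨s1, s2⟩ := C.small
  have c0 := C.hr₁
  have c1 := C.hη
  have c2 := C.hτ0
  have c3 := C.hτT
  have c4 := C.hβτ
  have c5 := C.hR
  have c6 := C.hℓ
  have c7 := C.ha
  have c8 := C.hε
  have c9 := C.hε1
  have hM := C.hM
  have hK := C.hK
  have hτ0 : 0 < τ := by linarith
  have hT0 : 0 < T₀ := by linarith
  obtain ⟨p1, p2⟩ := S.pos
  obtain ⟨q1, q2⟩ := abs_le.mp p1
  set t : ℝ := τ / (2 * ℓ) with ht
  have ht0 : 0 < t := by positivity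
  have htℓ : 2 * t * ℓ = τ := by rw [ht]; field_simp
  have ht' : (t : ℂ) ≠ 0 := by exact_mod_cast ht0.ne'
  set s : ℂ := pt y r 0 with hs
  set G : ℂ := logDeriv X w with hG
  have hws : w - s = 2 * (t : ℂ) * G := S.eq
  set W : ℂ := X w * gk t s w with hW
  have hgw : gk t s w = Complex.exp (-(t * G ^ 2)) := by
    unfold gk
    rw [hws]
    congr 1
    field_simp
    ring
  have hgx : ∀ x : ℝ, gk t s (w + x) = Complex.exp (-(t * G ^ 2)) * (Complex.exp (-(x * G)) * ((Real.exp (-(x ^ 2 / (4 * t))) : ℝ) : ℂ)) := by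
    intro x
    unfold gk
    rw [Complex.ofReal_exp, ← Complex.exp_add, ← Complex.exp_add]
    have e : w + x - s = 2 * (t : ℂ) * G + x := by rw [← hws]; ring
    rw [e]
    congr 1
    push_cast
    field_simp
    ring
  rcases le_or_gt (w.re + x) (1 / 2 + R) with hxR | hxR
  · -- the main part
    set f : ℝ → ℂ := fun x => X (w + x) * Complex.exp (-(x * G)) with hf
    set g : ℝ → ℂ := fun x => logDeriv X (w + x) - G with hg
    set I : Set ℝ := Icc (1 / 2 + β - w.re) (1 / 2 + R - w.re) with hI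
    have hpre : ∀ v : ℝ, (w + (v : ℂ)).re = w.re + v := fun v => by simp
    have hpim : ∀ v : ℝ, (w + (v : ℂ)).im = w.im := fun v => by simp
    have hmem : ∀ v ∈ I, 1 / 2 + β ≤ (w + (v : ℂ)).re ∧ (w + (v : ℂ)).re ≤ 1 / 2 + R ∧ |(w + (v : ℂ)).im - y| ≤ 1 := by
      intro v hv
      rw [hpre, hpim]
      exact ⟨by linarith [hv.1], by linarith [hv.2], by linarith⟩
    have hder : ∀ v ∈ I, HasDerivAt f (f v * g v) v := by
      intro v hv
      obtain ⟨m1, m2, m3⟩ := hmem v hv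
      have hne : X (w + v) ≠ 0 := C.G.ne _ m1 m2 m3
      have h3 : HasDerivAt (fun x : ℝ => w + (x : ℂ)) 1 v := by
        simpa using (Complex.ofRealCLM.hasDerivAt (x := v)).const_add w
      have h4 := (C.G.diff (w + v)).hasDerivAt.scomp v h3
      have h5 : HasDerivAt (fun x : ℝ => -((x : ℂ) * G)) (-G) v := by
        have h6 := ((Complex.ofRealCLM.hasDerivAt (x := v)).mul_const G).neg
        refine (h6.congr_deriv ?_)
        simp
      have h7 := h4.mul h5.cexp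
      refine h7.congr_deriv ?_
      simp only [Function.comp_apply, smul_eq_mul, hf, hg, logDeriv_apply, one_mul]
      field_simp
      ring
    have hlip : ∀ u ∈ I, ∀ v ∈ I, ‖g u - g v‖ ≤ ε * ℓ * |u - v| := by
      intro u hu v hv
      obtain ⟨m1, m2, m3⟩ := hmem u hu
      obtain ⟨n1, n2, n3⟩ := hmem v hv
      have h3 := C.G.lip (w + u) (w + v) m1 m2 m3 n1 n2 n3
      have e : g u - g v = logDeriv X (w + u) - logDeriv X (w + v) := by
        simp only [hg]; ring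
      rw [e]
      refine h3.trans (le_of_eq ?_)
      congr 1
      have e3 : w + (u : ℂ) - (w + v) = ((u - v : ℝ) : ℂ) := by push_cast; ring
      rw [e3, Complex.norm_real, Real.norm_eq_abs]
    have hg0 : g 0 = 0 := by simp [hg, hG]
    have hf0 : f 0 = X w := by simp [hf]
    have h0mem : (0 : ℝ) ∈ I := ⟨by linarith, by linarith⟩
    have hxI : x ∈ I := ⟨by linarith, by linarith⟩
    have hκt : 16 * (ε * ℓ) * t ≤ 1 / 8 := by
      have : 16 * (ε * ℓ) * t = 8 * ε * τ := by rw [← htℓ]; ring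
      rw [this]
      linarith
    have h3 := rl (convex_Icc _ _) (by positivity) ht0 (le_refl (0 : ℝ)) (κ := ε * ℓ) (X := 0) (by
        have : 32 * (ε * ℓ) * t = 2 * (16 * (ε * ℓ) * t) := by ring
        rw [this]; linarith) hder hlip h0mem hxI (by rw [hg0]; simp)
    have e5 : ((Real.exp (-(((0 : ℝ) - 0) ^ 2 / (4 * t))) : ℝ) : ℂ) = 1 := by simp
    have e6 : Real.exp (-(((0 : ℝ) - 0) ^ 2 / (4 * t))) = 1 := by simp
    rw [e5, e6, hf0, mul_one, mul_one, sub_zero] at h3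
    have h4 : thet t 0 (ε * ℓ) ≤ 1 / 8 := by
      unfold thet
      rw [mul_zero, zero_add]
      simp only [ne_eq, OfNat.ofNat_ne_zero, not_false_eq_true, zero_pow, mul_zero, Real.exp_zero, one_mul]
      linarith
    have e7 : X (w + x) * gk t s (w + x) - W * ((Real.exp (-(x ^ 2 / (4 * t))) : ℝ) : ℂ) =
        Complex.exp (-(t * G ^ 2)) * (f x * ((Real.exp (-(x ^ 2 / (4 * t))) : ℝ) : ℂ) - X w * ((Real.exp (-(x ^ 2 / (4 * t))) : ℝ) : ℂ)) := by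
      rw [hgx, hW, hgw]
      simp only [hf]
      ring
    have e8 : ‖W‖ = ‖Complex.exp (-(t * G ^ 2))‖ * ‖X w‖ := by rw [hW, hgw, norm_mul, mul_comm]
    rw [e7, norm_mul, e8]
    calc ‖Complex.exp (-(t * G ^ 2))‖ * ‖f x * ((Real.exp (-(x ^ 2 / (4 * t))) : ℝ) : ℂ) - X w * ((Real.exp (-(x ^ 2 / (4 * t))) : ℝ) : ℂ)‖
        ≤ ‖Complex.exp (-(t * G ^ 2))‖ * (‖X w‖ * thet t 0 (ε * ℓ) * Real.exp (-(x ^ 2 / (16 * t)))) := by gcongr
      _ ≤ ‖Complex.exp (-(t * G ^ 2))‖ * (‖X w‖ * (1 / 8) * Real.exp (-(x ^ 2 / (16 * t)))) := by gcongr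
      _ = _ := by ring
  · -- far to the right
    set u : ℝ := w.re + x - 1 / 2 with hu
    set v : ℝ := w.im - y with hv
    have hwx : w + (x : ℂ) = pt y u v := by
      apply Complex.ext
      · simp only [pt_re, hu, Complex.add_re, Complex.ofReal_re]; ring
      · simp only [pt_im, hv, Complex.add_im, Complex.ofReal_im]; ring
    set q : ℝ := u - r - τ with hq
    have hq2 : 2 ≤ q := by rw [hq, hu]; linarith
    have hxq : |x - q| ≤ 1 / 64 := by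
      have : x - q = -(w.re - (1 / 2 + r + τ)) := by rw [hq, hu]; ring
      rw [this, abs_neg]
      linarith
    obtain ⟨x1, x2⟩ := abs_le.mp hxq
    have hv1 : v ^ 2 ≤ (ε * τ) ^ 2 := by rw [← sq_abs v]; exact pow_le_pow_left₀ (abs_nonneg _) p2 2
    have hv2 : v ^ 2 ≤ 1 := by
      have : (ε * τ) ^ 2 ≤ 1 := by
        have : 0 ≤ ε * τ := by positivity
        exact pow_le_one₀ this (by linarith)
      linarith
    have hXb : ‖X (pt y u v)‖ ≤ M * Real.exp (ℓ * u + K * (2 + u ^ 2)) := by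
      have h3 := C.upx u v (by linarith)
      have hmax : max |u| a = u := by
        rw [abs_of_nonneg (by linarith)]
        exact max_eq_left (by linarith)
      rw [hmax] at h3
      refine h3.trans (mul_le_mul_of_nonneg_left (Real.exp_le_exp.mpr ?_) hM.le)
      have : K * (1 + u ^ 2 + v ^ 2) ≤ K * (2 + u ^ 2) := by
        refine mul_le_mul_of_nonneg_left ?_ (by linarith)
        linarith
      linarith
    have hgb : ‖gk t s (pt y u v)‖ ≤ Real.exp (-((u - r) ^ 2 * (ℓ / (2 * τ))) + ε * τ * ℓ) := by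
      rw [gk_norm, hs, pt_re, pt_im, pt_re, pt_im, add_zero]
      apply Real.exp_le_exp.mpr
      have e : ((1 / 2 + u - (1 / 2 + r)) ^ 2 - (y + v - y) ^ 2) / (4 * t) =
          ((u - r) ^ 2 - v ^ 2) * (ℓ / (2 * τ)) := by rw [ht]; field_simp; ring
      rw [e]
      have h3 : v ^ 2 * (ℓ / (2 * τ)) ≤ ε * τ * ℓ := by
        calc v ^ 2 * (ℓ / (2 * τ)) ≤ (ε * τ) ^ 2 * (ℓ / (2 * τ)) := by gcongr
          _ = (ε / 2) * (ε * τ * ℓ) := by field_simp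
          _ ≤ 1 * (ε * τ * ℓ) := by gcongr; linarith
          _ = _ := one_mul _
      linarith
    have hsz := size_sp C S h1 h2
    rw [← ht, ← hs, ← hW] at hsz
    have hxx : x ^ 2 ≤ 2 * q ^ 2 := by
      have g1 := pow_le_pow_left₀ (by linarith : 0 ≤ x) (by linarith : x ≤ q + 1 / 64) 2
      have g2 := mul_nonneg (by linarith : 0 ≤ q - 2) (by linarith : 0 ≤ q)
      linarith
    have hx1 : 1 ≤ x := by linarith
    have hTl : 192 * T₀ ≤ ℓ := by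
      have h3 := C.hℓK
      have h4 : 0 ≤ K * (4 + 2 * (a + T₀) ^ 2) := by positivity
      have h5 : 0 ≤ T₀ * (K * (4 + 2 * (a + T₀) ^ 2)) := mul_nonneg hT0.le h4
      linarith
    have e16 : x ^ 2 / (16 * t) = x ^ 2 * (ℓ / (8 * τ)) := by rw [ht]; field_simp; ring
    have e4 : x ^ 2 / (4 * t) = x ^ 2 * (ℓ / (2 * τ)) := by rw [ht]; field_simp; ring
    have b1 : ‖X (w + x) * gk t s (w + x)‖ ≤ ‖W‖ * (1 / 16) * Real.exp (-(x ^ 2 / (16 * t))) := by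
      rw [hwx, norm_mul]
      calc ‖X (pt y u v)‖ * ‖gk t s (pt y u v)‖
          ≤ (M * Real.exp (ℓ * u + K * (2 + u ^ 2))) * Real.exp (-((u - r) ^ 2 * (ℓ / (2 * τ))) + ε * τ * ℓ) := by gcongr
        _ = M * Real.exp (ℓ * u + K * (2 + u ^ 2) + (-((u - r) ^ 2 * (ℓ / (2 * τ))) + ε * τ * ℓ)) := by rw [mul_assoc, ← Real.exp_add]
        _ ≤ M * Real.exp (ℓ * (r + τ / 2) - ε * (1 + 3 * τ) * ℓ + -4 + -(x ^ 2 / (16 * t))) := by
            refine mul_le_mul_of_nonneg_left (Real.exp_le_exp.mpr ?_) hM.le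
            have k1 : ℓ * u - (u - r) ^ 2 * (ℓ / (2 * τ)) = ℓ * (r + τ / 2) - q ^ 2 * (ℓ / (2 * τ)) := by
              have : u = r + τ + q := by rw [hq]; ring
              rw [this]
              field_simp
              ring
            have k2 := ineq_far (u := u) (v' := r + τ) hτ0 c3 hK c8 c6 c7 hq2 hxx (by rw [hq]; ring) (by rw [hu]; linarith)
              (by linarith) C.hεT C.hεT2 C.hℓK
            rw [e16]
            linarith
        _ = (M * Real.exp (ℓ * (r + τ / 2) - ε * (1 + 3 * τ) * ℓ)) * Real.exp (-4) * Real.exp (-(x ^ 2 / (16 * t))) := by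
            rw [Real.exp_add _ (-(x ^ 2 / (16 * t))), Real.exp_add _ (-4)]; ring
        _ ≤ _ := by
            have := exp_neg_four
            gcongr
    have b2 : ‖W * ((Real.exp (-(x ^ 2 / (4 * t))) : ℝ) : ℂ)‖ ≤ ‖W‖ * (1 / 16) * Real.exp (-(x ^ 2 / (16 * t))) := by
      rw [norm_mul, Complex.norm_real, Real.norm_of_nonneg (Real.exp_pos _).le, mul_assoc]
      refine mul_le_mul_of_nonneg_left ?_ (norm_nonneg _)
      refine le_trans ?_ (mul_le_mul_of_nonneg_right exp_neg_four (Real.exp_pos _).le)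
      rw [← Real.exp_add]
      apply Real.exp_le_exp.mpr
      rw [e4, e16]
      have h3 : 4 ≤ x ^ 2 * (ℓ / (4 * τ)) := by
        have h4 : 1 ≤ x ^ 2 := one_le_pow₀ hx1
        have h5 : 1 * (ℓ / (4 * τ)) ≤ x ^ 2 * (ℓ / (4 * τ)) := by gcongr
        refine le_trans ?_ h5
        rw [one_mul, le_div_iff₀ (by positivity)]
        linarith
      have h4 : x ^ 2 * (ℓ / (2 * τ)) = x ^ 2 * (ℓ / (4 * τ)) + 2 * (x ^ 2 * (ℓ / (8 * τ))) := by field_simp; ring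
      have h5 : 0 ≤ x ^ 2 * (ℓ / (8 * τ)) := by positivity
      linarith
    refine (norm_sub_le _ _).trans ((add_le_add b1 b2).trans (le_of_eq ?_))
    ring

/-- the Gaussian to the left is negligible -/
lemma left_pt (C : XV X a K M ℓ y τ β ε R η T₀ r₁ φ) (S : SP X M ℓ y τ ε r w) (h1 : r₁ ≤ r)
    {x : ℝ} (hx : w.re + x ≤ 1 / 2 + β) :
    Real.exp (-(x ^ 2 / (4 * (τ / (2 * ℓ))))) ≤ (1 / 8) * Real.exp (-(x ^ 2 / (16 * (τ / (2 * ℓ))))) := by
  obtain ⟨s1, s2⟩ := C.small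
  have c0 := C.hr₁
  have c1 := C.hη
  have c2 := C.hτ0
  have c4 := C.hβτ
  have c6 := C.hℓ
  have c10 := C.hℓη
  have hτ0 : 0 < τ := by linarith
  obtain ⟨p1, p2⟩ := S.pos
  obtain ⟨q1, q2⟩ := abs_le.mp p1
  have c11 := C.hℓη2
  have c3 := C.hτT
  have hx2 : x ≤ -(η / 4) := by linarith
  have hxx : (η / 4) ^ 2 ≤ x ^ 2 := by
    have g1 := mul_nonneg (by linarith : 0 ≤ -x - η / 4) (by linarith : 0 ≤ -x + η / 4)
    linarith
  refine le_trans ?_ (mul_le_mul_of_nonneg_right exp_neg_three (Real.exp_pos _).le)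
  rw [← Real.exp_add]
  apply Real.exp_le_exp.mpr
  have e4 : x ^ 2 / (4 * (τ / (2 * ℓ))) = x ^ 2 * (ℓ / (2 * τ)) := by field_simp; ring
  have e16 : x ^ 2 / (16 * (τ / (2 * ℓ))) = x ^ 2 * (ℓ / (8 * τ)) := by field_simp; ring
  rw [e4, e16]
  have h3 : 4 ≤ x ^ 2 * (ℓ / (4 * τ)) := by
    have h4 : (η / 4) ^ 2 * (ℓ / (4 * τ)) ≤ x ^ 2 * (ℓ / (4 * τ)) := by gcongr
    refine le_trans ?_ h4
    have e : (η / 4) ^ 2 * (ℓ / (4 * τ)) = ℓ * η ^ 2 / (64 * τ) := by field_simp; ring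
    rw [e, le_div_iff₀ (by positivity)]
    linarith
  have h4 : x ^ 2 * (ℓ / (2 * τ)) = x ^ 2 * (ℓ / (4 * τ)) + 2 * (x ^ 2 * (ℓ / (8 * τ))) := by field_simp; ring
  have h5 : 0 ≤ x ^ 2 * (ℓ / (8 * τ)) := by positivity
  linarith

end Pool.Agent.H487.MI
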