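import Mathlib

/-!
# A curve whose argument increases at almost constant speed
-/

set_option autoImplicit false

open MeasureTheory Set Filter Topology
open scoped ComplexConjugate

namespace Pool.Agent.H487.MI

/-- a continuous logarithm -/
theorem lift_log {A A' : ℝ → ℂ} {y₁ y₂ : ℝ} (h12 : y₁ ≤ y₂) (hA : ∀ y, HasDerivAt A (A' y) y) (hc : Continuous A')
    (h0 : ∀ y ∈ Icc y₁ y₂, A y ≠ 0) : ∃ h v : ℝ → ℂ, (∀ y, HasDerivAt h (v y) y) ∧
      (∀ y ∈ Icc y₁ y₂, v y = A' y / A y) ∧ ∀ y ∈ Icc y₁ y₂, A y = A y₁ * Complex.exp (h y) := by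
  have hAc : Continuous A := continuous_iff_continuousAt.mpr fun y => (hA y).continuousAt
  have hvc : ContinuousOn (fun y => A' y / A y) (Icc y₁ y₂) := hc.continuousOn.div hAc.continuousOn h0
  set v : ℝ → ℂ := IccExtend h12 ((Icc y₁ y₂).domRestrict fun y => A' y / A y) with hv
  have hvcont : Continuous v := (continuousOn_iff_continuous_domRestrict.mp hvc).Icc_extend'
  have hv1 : ∀ y ∈ Icc y₁ y₂, v y = A' y / A y := fun y hy => by
    rw [hv, IccExtend_of_mem h12 _ hy]
    rfl
  set h : ℝ → ℂ := fun y => ∫ u in y₁..y, v u with hh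
  have hder : ∀ y, HasDerivAt h (v y) y := fun y =>
    intervalIntegral.integral_hasDerivAt_right (hvcont.intervalIntegrable _ _) (hvcont.stronglyMeasurableAtFilter _ _)
      hvcont.continuousAt
  refine ⟨h, v, hder, hv1, fun y hy => ?_⟩
  have hG : ∀ u ∈ Ico y₁ y₂, HasDerivWithinAt (fun u => A u * Complex.exp (-h u)) 0 (Ici u) u := by
    intro u hu
    have hu' : u ∈ Icc y₁ y₂ := ⟨hu.1, hu.2.le⟩
    have h1 := (hA u).mul ((hder u).neg.cexp)
    refine (h1.congr_deriv ?_).hasDerivWithinAt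
    rw [hv1 u hu']
    have := h0 u hu'
    field_simp
    ring
  have hcont : ContinuousOn (fun u => A u * Complex.exp (-h u)) (Icc y₁ y₂) := by
    have h1 : Continuous h := continuous_iff_continuousAt.mpr fun y => (hder y).continuousAt
    exact (hAc.mul (Complex.continuous_exp.comp h1.neg)).continuousOn
  have h2 := constant_of_has_deriv_right_zero hcont hG y hy
  have h3 : h y₁ = 0 := by simp [hh]
  rw [h3, neg_zero, Complex.exp_zero, mul_one] at h2
  rw [← h2, mul_assoc, ← Complex.exp_add]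
  simp

/-- zeros of `A + ε conj A` -/
theorem phase {A A' : ℝ → ℂ} {y₁ y₂ μ δ : ℝ} (h12 : y₁ ≤ y₂) (hA : ∀ y, HasDerivAt A (A' y) y) (hc : Continuous A')
    (h0 : ∀ y ∈ Icc y₁ y₂, A y ≠ 0) (hμ : 0 < μ) (hδ1 : δ < 1)
    (hb : ∀ y ∈ Icc y₁ y₂, |(A' y / A y).im - μ| ≤ δ * μ) {ε : ℂ} (hε : ‖ε‖ = 1) :
    (∀ a b : ℝ, y₁ ≤ a → a < b → b ≤ y₂ → A a + ε * conj (A a) = 0 → A b + ε * conj (A b) = 0 →
      Real.pi ≤ (1 + δ) * μ * (b - a)) ∧
    (∀ a b : ℝ, y₁ ≤ a → b ≤ y₂ → a ≤ b → Real.pi ≤ (1 - δ) * μ * (b - a) → ∃ y ∈ Icc a b, A y + ε * conj (A y) = 0) := by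
  obtain ⟨h, v, hder, hv, hexp⟩ := lift_log h12 hA hc h0
  have hpi := Real.pi_pos
  set ψ : ℝ → ℝ := fun y => (h y).im with hψ
  have hψd : ∀ y, HasDerivAt ψ (v y).im y := fun y => Complex.imCLM.hasFDerivAt.comp_hasDerivAt y (hder y)
  have hψc : Continuous ψ := continuous_iff_continuousAt.mpr fun y => (hψd y).continuousAt
  -- increments
  have hinc : ∀ a b : ℝ, y₁ ≤ a → a ≤ b → b ≤ y₂ → (1 - δ) * μ * (b - a) ≤ ψ b - ψ a ∧ ψ b - ψ a ≤ (1 + δ) * μ * (b - a) := by
    intro a b ha hab hb'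
    rcases hab.eq_or_lt with h1 | h1
    · rw [h1]; simp
    obtain ⟨c, hc1, hc2⟩ := exists_hasDerivAt_eq_slope ψ (fun y => (v y).im) h1 hψc.continuousOn (fun y _ => hψd y)
    have hcm : c ∈ Icc y₁ y₂ := ⟨by linarith [hc1.1], by linarith [hc1.2]⟩
    have h2 := hb c hcm
    rw [← hv c hcm] at h2
    obtain ⟨h3, h4⟩ := abs_le.mp h2
    have hba : 0 < b - a := by linarith
    rw [eq_div_iff hba.ne'] at hc2
    rw [← hc2]
    constructor
    · refine mul_le_mul_of_nonneg_right ?_ hba.le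
      linarith
    · refine mul_le_mul_of_nonneg_right ?_ hba.le
      linarith
  -- the zero condition
  set α : ℝ := (A y₁).arg with hα
  set γ : ℝ := (-ε).arg with hγ
  have hεexp : -ε = Complex.exp (γ * Complex.I) := by
    have h1 := Complex.norm_mul_exp_arg_mul_I (-ε)
    rw [norm_neg, hε, Complex.ofReal_one, one_mul] at h1
    exact h1.symm
  have hzero : ∀ y ∈ Icc y₁ y₂, (A y + ε * conj (A y) = 0 ↔ ∃ n : ℤ, 2 * (α + ψ y) = γ + n * (2 * Real.pi)) := by
    intro y hy
    have hAy := h0 y hy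
    set ρ : ℝ := ‖A y‖ with hρ
    have hρ0 : 0 < ρ := norm_pos_iff.mpr hAy
    have hAy1 : A y = ρ * Complex.exp ((α + ψ y : ℝ) * Complex.I) := by
      have h1 := hexp y hy
      have h2 : Complex.exp (h y) = (Real.exp (h y).re : ℝ) * Complex.exp ((ψ y : ℝ) * Complex.I) := by
        rw [Complex.ofReal_exp, ← Complex.exp_add]
        congr 1
        exact (Complex.re_add_im (h y)).symm
      have h3 := Complex.norm_mul_exp_arg_mul_I (A y₁)
      have h4 : ρ = ‖A y₁‖ * Real.exp (h y).re := by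
        rw [hρ, h1, norm_mul, Complex.norm_exp]
      rw [h4, h1]
      conv_lhs => rw [← h3, h2]
      push_cast
      rw [add_mul, Complex.exp_add]
      ring
    have hcj : conj (A y) = ρ * Complex.exp (-((α + ψ y : ℝ) * Complex.I)) := by
      rw [hAy1, map_mul, Complex.conj_ofReal, ← Complex.exp_conj, map_mul, Complex.conj_I, Complex.conj_ofReal, mul_neg]
    have hρc : (ρ : ℂ) ≠ 0 := by exact_mod_cast hρ0.ne'
    constructor
    · intro hz
      have h5 : Complex.exp ((2 * (α + ψ y) : ℝ) * Complex.I) = Complex.exp (γ * Complex.I) := by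
        rw [← hεexp]
        have h6 : A y = -ε * conj (A y) := by linear_combination hz
        rw [hcj, hAy1] at h6
        have h7 : Complex.exp ((α + ψ y : ℝ) * Complex.I) = -ε * Complex.exp (-((α + ψ y : ℝ) * Complex.I)) := by
          apply mul_left_cancel₀ hρc
          rw [h6]
          ring
        have h8 : Complex.exp ((2 * (α + ψ y) : ℝ) * Complex.I) =
            Complex.exp ((α + ψ y : ℝ) * Complex.I) * Complex.exp ((α + ψ y : ℝ) * Complex.I) := by
          rw [← Complex.exp_add]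
          congr 1
          push_cast
          ring
        have h9 : Complex.exp ((α + ψ y : ℝ) * Complex.I) * Complex.exp (-((α + ψ y : ℝ) * Complex.I)) = 1 := by
          rw [← Complex.exp_add, add_neg_cancel, Complex.exp_zero]
        rw [h8]
        linear_combination Complex.exp ((α + ψ y : ℝ) * Complex.I) * h7 + (-ε) * h9
      obtain ⟨n, hn⟩ := Complex.exp_eq_exp_iff_exists_int.mp h5
      refine ⟨n, ?_⟩
      have h9 : ((2 * (α + ψ y) : ℝ) : ℂ) * Complex.I = ((γ + n * (2 * Real.pi) : ℝ) : ℂ) * Complex.I := by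
        rw [hn]
        push_cast
        ring
      have h10 := mul_right_cancel₀ Complex.I_ne_zero h9
      exact_mod_cast h10
    · rintro ⟨n, hn⟩
      have h5 : Complex.exp ((2 * (α + ψ y) : ℝ) * Complex.I) = Complex.exp (γ * Complex.I) := by
        refine Complex.exp_eq_exp_iff_exists_int.mpr ⟨n, ?_⟩
        rw [hn]
        push_cast
        ring
      rw [← hεexp] at h5
      have h8 : Complex.exp ((2 * (α + ψ y) : ℝ) * Complex.I) =
          Complex.exp ((α + ψ y : ℝ) * Complex.I) * Complex.exp ((α + ψ y : ℝ) * Complex.I) := by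
        rw [← Complex.exp_add]
        congr 1
        push_cast
        ring
      rw [h8] at h5
      have h9 : Complex.exp ((α + ψ y : ℝ) * Complex.I) * Complex.exp (-((α + ψ y : ℝ) * Complex.I)) = 1 := by
        rw [← Complex.exp_add, add_neg_cancel, Complex.exp_zero]
      have h10 : ε = -(Complex.exp ((α + ψ y : ℝ) * Complex.I) * Complex.exp ((α + ψ y : ℝ) * Complex.I)) := by
        rw [h5, neg_neg]
      rw [hcj, hAy1, h10]
      linear_combination (-(ρ : ℂ) * Complex.exp ((α + ψ y : ℝ) * Complex.I)) * h9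
  constructor
  · intro a b ha hab hb' za zb
    have hμδ : 0 < (1 - δ) * μ := mul_pos (by linarith) hμ
    obtain ⟨n, hn⟩ := (hzero a ⟨ha, by linarith⟩).mp za
    obtain ⟨m, hm⟩ := (hzero b ⟨by linarith, hb'⟩).mp zb
    obtain ⟨i1, i2⟩ := hinc a b ha hab.le hb'
    have h1 : ψ b - ψ a = (m - n) * Real.pi := by linarith
    have h2 : 0 < ψ b - ψ a := lt_of_lt_of_le (mul_pos hμδ (by linarith)) i1
    rw [h1] at h2
    have h3 : (0 : ℝ) < m - n := by
      by_contra hcon
      push Not at hcon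
      have := mul_nonpos_of_nonpos_of_nonneg hcon hpi.le
      linarith
    have h4 : (1 : ℝ) ≤ m - n := by
      have h5 : 0 < m - n := by exact_mod_cast h3
      exact_mod_cast h5
    have h5 : 1 * Real.pi ≤ (m - n) * Real.pi := mul_le_mul_of_nonneg_right h4 hpi.le
    linarith
  · intro a b ha hb' hab hπ
    obtain ⟨i1, i2⟩ := hinc a b ha hab hb'
    set k : ℤ := ⌈(2 * (α + ψ a) - γ) / (2 * Real.pi)⌉ with hk
    have hk1 : (2 * (α + ψ a) - γ) / (2 * Real.pi) ≤ k := Int.le_ceil _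
    have hk2 : (k : ℝ) < (2 * (α + ψ a) - γ) / (2 * Real.pi) + 1 := Int.ceil_lt_add_one _
    rw [div_le_iff₀ (by positivity)] at hk1
    rw [← sub_lt_iff_lt_add, lt_div_iff₀ (by positivity)] at hk2
    have hmem : (γ + k * (2 * Real.pi)) / 2 - α ∈ Icc (ψ a) (ψ b) := ⟨by linarith, by linarith⟩
    obtain ⟨y, hy1, hy2⟩ := intermediate_value_Icc hab hψc.continuousOn hmem
    refine ⟨y, hy1, (hzero y ⟨by linarith [hy1.1], by linarith [hy1.2]⟩).mpr ⟨k, ?_⟩⟩
    rw [hy2]
    ring

end Pool.Agent.H487.MI
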