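import Pool.Agent.H487.MI.Core

/-!
# The averages at the saddle point, with a bound on the critical line
-/

set_option autoImplicit false

open MeasureTheory Set Filter Topology Metric
open scoped ComplexConjugate

namespace Pool.Agent.H487.MI

open NB NZ

variable {X : ℂ → ℂ} {a K M ℓ y τ β ε R η T₀ r₁ r : ℝ} {φ : ℝ → ℝ} {w : ℂ}

/-- **the averages at the saddle point** -/
theorem est (C : XV X a K M ℓ y τ β ε R η T₀ r₁ φ) (S : SP X M ℓ y τ ε r w) (h1 : r₁ ≤ r) (h2 : r ≤ a) :
    ‖RR (τ / (2 * ℓ)) X (1 / 2 + y * Complex.I) r - ((Real.sqrt (4 * Real.pi * (τ / (2 * ℓ))) : ℝ) : ℂ) *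
        (X w * gk (τ / (2 * ℓ)) (pt y r 0) w)‖ ≤
      1 / 2 * Real.sqrt (4 * Real.pi * (τ / (2 * ℓ))) * ‖X w * gk (τ / (2 * ℓ)) (pt y r 0) w‖ ∧
    ‖RD (τ / (2 * ℓ)) X (1 / 2 + y * Complex.I) r - logDeriv X w * RR (τ / (2 * ℓ)) X (1 / 2 + y * Complex.I) r‖ ≤
      40 * ‖X w * gk (τ / (2 * ℓ)) (pt y r 0) w‖ := by
  obtain ⟨s1, s2⟩ := C.small
  have c0 := C.hr₁
  have c1 := C.hη
  have c1' := C.hη1
  have c2 := C.hτ0
  have c3 := C.hτT
  have c4 := C.hβτ
  have c5 := C.hβ
  have c6 := C.hℓ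
  have c7 := C.ha
  have c8 := C.hε
  have c9 := C.hε1
  have c10 := C.hβa
  have hτ0 : 0 < τ := by linarith
  obtain ⟨p1, p2⟩ := S.pos
  obtain ⟨q1, q2⟩ := abs_le.mp p1
  have hk1 := C.hk1
  have hk2 := C.hk2
  have hright := fun x : ℝ => right_pt C S h1 h2 (x := x)
  have hleft := fun x : ℝ => left_pt C S h1 (x := x)
  have hstrip := fun u v : ℝ => strip_small C S h1 h2 (u := u) (v := v)
  set t : ℝ := τ / (2 * ℓ) with ht
  have ht0 : 0 < t := by positivity
  have ht' : (t : ℂ) ≠ 0 := by exact_mod_cast ht0.ne'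
  set s : ℂ := pt y r 0 with hs
  set W : ℂ := X w * gk t s w with hW
  set G : ℂ := logDeriv X w with hG
  set κ : ℝ := Real.sqrt (4 * Real.pi * t) with hκ
  have hκ0 : 0 ≤ κ := Real.sqrt_nonneg _
  have hws : w - s = 2 * (t : ℂ) * G := S.eq
  have hd := C.diff
  have h0 : Type0 X := C.slow.type0
  set y₁ : ℝ := w.im with hy₁
  set Ex : ℝ := Real.exp (-(η * ℓ / 4)) with hEx
  have hEx0 : 0 < Ex := Real.exp_pos _
  have hWn := norm_nonneg W
  -- the indicator function
  set J : ℝ → ℂ := (Ioi (1 / 2 + β - w.re)).indicator (fun x : ℝ => X (w + x) * gk t s (w + x)) with hJ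
  have hJc : Continuous fun x : ℝ => X (w + x) * gk t s (w + x) :=
    (hd.continuous.comp (by fun_prop)).mul ((gk_diff t s).continuous.comp (by fun_prop))
  have hJm : AEStronglyMeasurable J := hJc.aestronglyMeasurable.indicator measurableSet_Ioi
  have hJpt : ∀ x, ‖J x - W * ((Real.exp (-(x ^ 2 / (4 * t))) : ℝ) : ℂ)‖ ≤ ‖W‖ * (1 / 8) * Real.exp (-(x ^ 2 / (16 * t))) := by
    intro x
    by_cases hx : x ∈ Ioi (1 / 2 + β - w.re)
    · have e : J x = X (w + x) * gk t s (w + x) := by rw [hJ, indicator_of_mem hx]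
      rw [e]
      exact hright x (by have : 1 / 2 + β - w.re < x := hx; linarith)
    · have e : J x = 0 := by rw [hJ, indicator_of_notMem hx]
      rw [e, zero_sub, norm_neg, norm_mul, Complex.norm_real, Real.norm_of_nonneg (Real.exp_pos _).le, mul_assoc]
      refine mul_le_mul_of_nonneg_left ?_ hWn
      exact hleft x (by have : x ≤ 1 / 2 + β - w.re := not_lt.mp hx; linarith)
  obtain ⟨-, j1, -, j2⟩ := rl_int2 ht0 hJm hJpt
  rw [← hκ] at j1
  have hpt1 : ∀ x v : ℝ, (x : ℂ) + v * Complex.I = pt y (x - 1 / 2) (v - y) := fun x v => by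
    apply Complex.ext <;> simp
  have hw1 : ∀ x : ℝ, (((x + w.re : ℝ) : ℂ) + y₁ * Complex.I) = w + x := fun x => by
    apply Complex.ext
    · simp
      ring
    · simp [hy₁]
  have hind : ∀ x : ℝ, (x + w.re ∈ Ioi (1 / 2 + β)) ↔ (x ∈ Ioi (1 / 2 + β - w.re)) := fun x => by
    simp only [mem_Ioi]
    constructor <;> intro h <;> linarith
  -- first average
  have r1 : (∫ x in Ioi (1 / 2 + β : ℝ), X (x + y₁ * Complex.I) * gk t s (x + y₁ * Complex.I)) = ∫ x, J x := by
    rw [← integral_indicator measurableSet_Ioi]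
    rw [← integral_add_right_eq_self (fun x => (Ioi (1 / 2 + β : ℝ)).indicator (fun x : ℝ => X (x + y₁ * Complex.I) * gk t s (x + y₁ * Complex.I)) x) w.re]
    refine integral_congr_ae (Eventually.of_forall fun x => ?_)
    simp only [hJ]
    by_cases hx : x ∈ Ioi (1 / 2 + β - w.re)
    · rw [indicator_of_mem hx, indicator_of_mem ((hind x).mpr hx), hw1]
    · rw [indicator_of_notMem hx, indicator_of_notMem (fun h => hx ((hind x).mp h))]
  have sp1 := half_split hd h0 ht0 s (y := y) (y₁ := y₁) (β := β) (E := ‖W‖ * Ex) c5.le (fun x hx1 hx2 => by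
      rw [hpt1]
      exact hstrip (x - 1 / 2) (y₁ - y) (by linarith) (by linarith) p2) (fun v hv => by
      have e : (1 / 2 : ℂ) + v * Complex.I = pt y 0 (v - y) := by
        apply Complex.ext <;> simp
      rw [e]
      exact hstrip 0 (v - y) le_rfl c5.le (hv.trans p2))
  rw [r1, ← rr_eq] at sp1
  have hsum : β + |y₁ - y| ≤ a + 2 := by linarith
  have hC3 : 0 ≤ ((2 * a + 4) / τ + 2) * ℓ := by positivity
  have hsmall : (a + 2) * Ex ≤ κ / 16 := by
    refine le_trans ?_ hk1
    refine mul_le_mul_of_nonneg_right ?_ hEx0.le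
    nlinarith
  have hsmall2 : (a + 2) * (((2 * a + 4) / τ + 2) * ℓ) * Ex ≤ 1 := by
    have h3 : (a + 2) * (((2 * a + 4) / τ + 2) * ℓ) * Ex ≤ κ / 16 := by
      refine le_trans ?_ hk1
      refine mul_le_mul_of_nonneg_right ?_ hEx0.le
      refine mul_le_mul_of_nonneg_left ?_ (by linarith)
      linarith
    linarith
  constructor
  · have h3 := norm_add_le (RR t X (1 / 2 + y * Complex.I) r - ∫ x, J x) ((∫ x, J x) - (κ : ℂ) * W)
    rw [sub_add_sub_cancel] at h3
    refine h3.trans ?_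
    have h4 : (β + |y₁ - y|) * (‖W‖ * Ex) ≤ κ / 16 * ‖W‖ := by
      calc (β + |y₁ - y|) * (‖W‖ * Ex) ≤ (a + 2) * (‖W‖ * Ex) := by gcongr
        _ = ((a + 2) * Ex) * ‖W‖ := by ring
        _ ≤ _ := by gcongr
    have h5 : 0 ≤ κ * ‖W‖ := by positivity
    linarith
  · -- the derivative
    set F₁ : ℂ → ℂ := fun z => X z * (((1 / (2 * t) : ℝ) : ℂ) * z + (-(s / (2 * t)) - G)) with hF₁
    have hF₁d : Differentiable ℂ F₁ := hd.mul (by fun_prop)
    have hF₁0 : Type0 F₁ := type0_affine h0 _ _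
    have hF₁e : ∀ z : ℂ, F₁ z = X z * ((z - s) / (2 * t)) - G * X z := fun z => by
      simp only [hF₁]; push_cast; ring
    have hrd : RD t X (1 / 2 + y * Complex.I) r - G * RR t X (1 / 2 + y * Complex.I) r =
        ∫ x in Ioi (1 / 2 : ℝ), F₁ (x + y * Complex.I) * gk t s (x + y * Complex.I) := by
      have i1 := (gk_integrable hd.continuous h0 ht0 s y).const_mul G
      have i2 : Integrable fun x : ℝ => (X (x + y * Complex.I) * (((x + y * Complex.I) - s) / (2 * t))) * gk t s (x + y * Complex.I) := by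
        have h3 := gk_integrable (F := fun z => X z * (((1 / (2 * t) : ℝ) : ℂ) * z + (-(s / (2 * t)))))
          (hd.continuous.mul (by fun_prop)) (type0_affine h0 _ _) ht0 s y
        refine h3.congr (Eventually.of_forall fun x => ?_)
        simp only []
        push_cast
        ring
      rw [rd_eq, rr_eq, ← integral_const_mul, ← integral_sub i2.integrableOn i1.integrableOn]
      refine integral_congr_ae (Eventually.of_forall fun x => ?_)
      simp only []
      rw [hF₁e]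
      ring
    have hGn : ‖G‖ ≤ 2 * ℓ := by
      have h3 := C.G.lg w (by linarith [C.hβτ]) (by linarith [C.hR]) (by linarith)
      have h4 := norm_add_le (G - (ℓ : ℂ)) (ℓ : ℂ)
      rw [sub_add_cancel, Complex.norm_real, Real.norm_of_nonneg (by linarith)] at h4
      have h5 : ε * ℓ ≤ ℓ := by nlinarith
      linarith
    have hfac : ∀ u v : ℝ, 0 ≤ u → u ≤ β → |v| ≤ ε * τ → ‖(pt y u v - s) / (2 * t) - G‖ ≤ ((2 * a + 4) / τ + 2) * ℓ := by
      intro u v hu0 hu hv
      refine (norm_sub_le _ _).trans ?_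
      have h3 : ‖pt y u v - s‖ ≤ 2 * a + 4 := by
        refine (Complex.norm_le_abs_re_add_abs_im _).trans ?_
        rw [Complex.sub_re, Complex.sub_im, hs, pt_re, pt_im, pt_re, pt_im]
        have h4 : |1 / 2 + u - (1 / 2 + r)| ≤ 2 * a + 3 := by
          rw [abs_le]; constructor <;> linarith
        have h5 : |y + v - (y + 0)| ≤ 1 := by
          have : y + v - (y + 0) = v := by ring
          rw [this]; linarith
        linarith
      have e2 : ‖(2 * (t : ℂ))‖ = 2 * t := by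
        rw [norm_mul, Complex.norm_real, Real.norm_of_nonneg ht0.le, Complex.norm_ofNat]
      rw [norm_div, e2]
      have h4 : ‖pt y u v - s‖ / (2 * t) ≤ (2 * a + 4) / τ * ℓ := by
        calc ‖pt y u v - s‖ / (2 * t) ≤ (2 * a + 4) / (2 * t) := by gcongr
          _ = (2 * a + 4) / τ * ℓ := by rw [ht]; field_simp
      linarith
    have hF₁b : ∀ u v : ℝ, 0 ≤ u → u ≤ β → |v| ≤ ε * τ → ‖F₁ (pt y u v) * gk t s (pt y u v)‖ ≤
        ((2 * a + 4) / τ + 2) * ℓ * (‖W‖ * Ex) := by
      intro u v hu0 hu hv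
      have e2 : F₁ (pt y u v) * gk t s (pt y u v) = ((pt y u v - s) / (2 * t) - G) * (X (pt y u v) * gk t s (pt y u v)) := by
        rw [hF₁e]; ring
      rw [e2, norm_mul]
      exact mul_le_mul (hfac u v hu0 hu hv) (hstrip u v hu0 hu hv) (norm_nonneg _) hC3
    have r2 : (∫ x in Ioi (1 / 2 + β : ℝ), F₁ (x + y₁ * Complex.I) * gk t s (x + y₁ * Complex.I)) =
        ∫ x : ℝ, ((x / (2 * t) : ℝ) : ℂ) * J x := by
      rw [← integral_indicator measurableSet_Ioi]
      rw [← integral_add_right_eq_self (fun x => (Ioi (1 / 2 + β : ℝ)).indicator (fun x : ℝ => F₁ (x + y₁ * Complex.I) * gk t s (x + y₁ * Complex.I)) x) w.re]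
      refine integral_congr_ae (Eventually.of_forall fun x => ?_)
      simp only [hJ]
      by_cases hx : x ∈ Ioi (1 / 2 + β - w.re)
      · rw [indicator_of_mem hx, indicator_of_mem ((hind x).mpr hx), hw1, hF₁e]
        have e3 : (w + x - s) / (2 * t) = G + x / (2 * t) := by
          have : w + x - s = 2 * (t : ℂ) * G + x := by rw [← hws]; ring
          rw [this]
          field_simp
        rw [e3]
        push_cast
        ring
      · rw [indicator_of_notMem hx, indicator_of_notMem (fun h => hx ((hind x).mp h)), mul_zero]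
    have sp2 := half_split hF₁d hF₁0 ht0 s (y := y) (y₁ := y₁) (β := β) (E := ((2 * a + 4) / τ + 2) * ℓ * (‖W‖ * Ex)) c5.le (fun x hx1 hx2 => by
        rw [hpt1]
        exact hF₁b (x - 1 / 2) (y₁ - y) (by linarith) (by linarith) p2) (fun v hv => by
        have e : (1 / 2 : ℂ) + v * Complex.I = pt y 0 (v - y) := by
          apply Complex.ext <;> simp
        rw [e]
        exact hF₁b 0 (v - y) le_rfl c5.le (hv.trans p2))
    rw [r2] at sp2
    rw [hrd]
    have h3 := norm_add_le ((∫ x in Ioi (1 / 2 : ℝ), F₁ (x + y * Complex.I) * gk t s (x + y * Complex.I)) -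
      ∫ x : ℝ, ((x / (2 * t) : ℝ) : ℂ) * J x) (∫ x : ℝ, ((x / (2 * t) : ℝ) : ℂ) * J x)
    rw [sub_add_cancel] at h3
    refine h3.trans ?_
    have h4 : (β + |y₁ - y|) * (((2 * a + 4) / τ + 2) * ℓ * (‖W‖ * Ex)) ≤ ‖W‖ := by
      calc (β + |y₁ - y|) * (((2 * a + 4) / τ + 2) * ℓ * (‖W‖ * Ex)) ≤ (a + 2) * (((2 * a + 4) / τ + 2) * ℓ * (‖W‖ * Ex)) := by
            refine mul_le_mul_of_nonneg_right hsum ?_
            positivity
        _ = ((a + 2) * (((2 * a + 4) / τ + 2) * ℓ) * Ex) * ‖W‖ := by ring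
        _ ≤ 1 * ‖W‖ := by gcongr
        _ = _ := one_mul _
    linarith

end Pool.Agent.H487.MI
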