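import Pool.Agent.H487.MI.Res

/-!
# `XV` at the scale one, away from the line
-/

set_option autoImplicit false

open MeasureTheory Set Filter Topology Metric
open scoped ComplexConjugate

namespace Pool.Agent.H487.MI

open NB NZ

theorem macro_far (K a₁ : ℝ) (ha₁ : 0 < a₁) (ha₁' : a₁ ≤ 1) : ∃ ℓ₀ : ℝ, 1 ≤ ℓ₀ ∧
    ∀ (X : ℂ → ℂ) (M ℓ y : ℝ), Base X 2 K M ℓ y → ℓ₀ ≤ ℓ →
      (∀ z : ℂ, 1 / 2 + a₁ / 8 < z.re → |z.im - y| ≤ 7 → X z ≠ 0) →
      ∀ τ : ℝ, 10 ^ 5 ≤ τ * ℓ → τ ≤ a₁ ^ 2 / 12 → ∀ r : ℝ, a₁ ≤ r → r ≤ 2 →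
        heat (τ / (2 * ℓ)) X (1 / 2 + y * Complex.I + r) ≠ 0 := by
  set ε : ℝ := a₁ / 448 with hε
  have hε0 : 0 < ε := by positivity
  obtain ⟨L1, hL1, H4⟩ := x4 2 K 1 5 (a₁ / 8) ε (by norm_num) (by positivity) (by linarith) hε0 zero_le_one (by norm_num)
  set L2 : ℝ := 1024 / a₁ ^ 2 with hL2
  set L3 : ℝ := 64 * (|K| * 22 + 3) with hL3
  set L4 : ℝ := 200 * |K| with hL4
  set L5 : ℝ := 10 ^ 4 / a₁ ^ 4 with hL5
  set L6 : ℝ := 3 * |K| / (2 * ε) with hL6
  refine ⟨max L1 (max L2 (max L3 (max L4 (max L5 L6)))), hL1.trans (le_max_left _ _), fun X M ℓ y B hℓ hz τ hτ hτ1 r hr1 hr2 => ?_⟩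
  have l1 : L1 ≤ ℓ := (le_max_left _ _).trans hℓ
  have l' := (le_max_right _ _).trans hℓ
  have l2 : L2 ≤ ℓ := (le_max_left _ _).trans l'
  have l'' := (le_max_right _ _).trans l'
  have l3 : L3 ≤ ℓ := (le_max_left _ _).trans l''
  have l3' := (le_max_right _ _).trans l''
  have l4 : L4 ≤ ℓ := (le_max_left _ _).trans l3'
  have l4' := (le_max_right _ _).trans l3'
  have l5 : L5 ≤ ℓ := (le_max_left _ _).trans l4'
  have l6 : L6 ≤ ℓ := (le_max_right _ _).trans l4'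
  have hℓ1 : 1 ≤ ℓ := hL1.trans l1
  have hℓ0 : 0 < ℓ := by linarith
  have hK := B.hK
  have hM := B.hM
  have hKabs : |K| = K := abs_of_pos (by linarith)
  rw [hL2, div_le_iff₀ (by positivity)] at l2
  rw [hL3, hKabs] at l3
  rw [hL4, hKabs] at l4
  rw [hL5, div_le_iff₀ (by positivity)] at l5
  rw [hL6, hKabs, div_le_iff₀ (by positivity)] at l6
  have hτ0 : 0 < τ := by
    by_contra hcon
    push Not at hcon
    have := mul_nonpos_of_nonpos_of_nonneg hcon hℓ0.le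
    linarith
  have ha2 : a₁ ^ 2 ≤ 1 := pow_le_one₀ ha₁.le ha₁'
  have hτT : τ ≤ 1 := by linarith
  have hℓ5 : 10 ^ 5 ≤ ℓ := by
    have : τ * ℓ ≤ 1 * ℓ := by gcongr
    linarith
  have G := H4 X M ℓ y B l1 (a₁ / 8) (by positivity) (by linarith) (fun z h1 h2 => hz z h1 (by linarith))
  have e8 : a₁ / 8 + a₁ / 8 = a₁ / 4 := by ring
  rw [e8] at G
  have hpi := Real.pi_gt_three
  have hpi4 := Real.pi_le_four
  have hκsq : 4 * Real.pi * (τ / (2 * ℓ)) = 2 * Real.pi * τ / ℓ := by field_simp; ring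
  have hk2 : Real.sqrt (4 * Real.pi * (τ / (2 * ℓ))) ≤ 1 := by
    apply Real.sqrt_le_one.mpr
    rw [hκsq, div_le_one hℓ0]
    have h3 : 2 * Real.pi * τ ≤ 2 * 4 * 1 := by gcongr
    linarith
  have h3 : (200 / ℓ) ≤ Real.sqrt (4 * Real.pi * (τ / (2 * ℓ))) := by
    rw [Real.le_sqrt' (by positivity), hκsq, div_pow, div_le_div_iff₀ (by positivity) hℓ0]
    have h5 : (200 : ℝ) ^ 2 = 40000 := by norm_num
    rw [h5]
    have h6 : 40000 ≤ 2 * Real.pi * (τ * ℓ) := by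
      have : 2 * 3 * (10 ^ 5) ≤ 2 * Real.pi * (τ * ℓ) := by gcongr
      linarith
    calc (40000 : ℝ) * ℓ ≤ (2 * Real.pi * (τ * ℓ)) * ℓ := by gcongr
      _ = 2 * Real.pi * τ * ℓ ^ 2 := by ring
  have hk1 : (2 + 2) * (((2 * 2 + 4) / τ + 2) * ℓ + 1) * Real.exp (-(a₁ * ℓ / 4)) ≤
      Real.sqrt (4 * Real.pi * (τ / (2 * ℓ))) / 16 := by
    have h4 := Real.pow_div_factorial_le_exp (a₁ * ℓ / 4) (by positivity) 4
    have h5 : (Nat.factorial 4 : ℝ) = 24 := by norm_num [Nat.factorial]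
    rw [h5] at h4
    have h6 : 16 * 16 * ℓ ^ 3 / 200 ≤ Real.exp (a₁ * ℓ / 4) := by
      refine le_trans ?_ h4
      have h8 : (a₁ * ℓ / 4) ^ 4 / 24 = ℓ ^ 3 * (ℓ * a₁ ^ 4 / 6144) := by ring
      rw [h8]
      have h9 : 16 * 16 / 200 ≤ ℓ * a₁ ^ 4 / 6144 := by
        rw [le_div_iff₀ (by norm_num)]
        norm_num at l5 ⊢
        linarith
      nlinarith [pow_pos hℓ0 3]
    have h7 : Real.exp (-(a₁ * ℓ / 4)) ≤ 200 / (16 * 16 * ℓ ^ 3) := by
      rw [Real.exp_neg, inv_eq_one_div, div_le_div_iff₀ (Real.exp_pos _) (by positivity)]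
      rw [div_le_iff₀ (by norm_num)] at h6
      linarith
    have h8 : (2 * 2 + 4) / τ ≤ 8 * ℓ / 10 ^ 5 := by
      rw [div_le_div_iff₀ hτ0 (by norm_num)]
      linarith
    have h9 : ((2 * 2 + 4) / τ + 2) * ℓ + 1 ≤ 4 * ℓ ^ 2 := by
      have : ((2 * 2 + 4) / τ + 2) * ℓ ≤ (8 * ℓ / 10 ^ 5 + 2) * ℓ := by gcongr
      nlinarith
    calc (2 + 2) * (((2 * 2 + 4) / τ + 2) * ℓ + 1) * Real.exp (-(a₁ * ℓ / 4)) ≤
        (2 + 2) * (4 * ℓ ^ 2) * (200 / (16 * 16 * ℓ ^ 3)) := by gcongr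
      _ = 200 / ℓ / 16 := by field_simp; ring
      _ ≤ _ := by gcongr
  have C : XV X 2 K M ℓ y τ (a₁ / 4) ε 5 a₁ 1 a₁ (fun _ => 2) :=
    { diff := B.diff
      slow := B.slow
      fe := B.fe
      hK := hK
      hM := hM
      upx := fun u v _ => B.up u v
      G := G
      strip := fun u v hu1 hu2 hv => by
        refine (B.up u v).trans (mul_le_mul_of_nonneg_left (Real.exp_le_exp.mpr ?_) hM.le)
        have h1 : max |u| 2 = 2 := by
          rw [abs_of_nonneg hu1]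
          exact max_eq_right (by linarith)
        have h2 : u ^ 2 ≤ 1 := by nlinarith
        have h3 : v ^ 2 ≤ 1 := by rw [← sq_abs]; exact pow_le_one₀ (abs_nonneg _) hv
        have h4 : K * (1 + u ^ 2 + v ^ 2) ≤ K * 3 := by
          apply mul_le_mul_of_nonneg_left _ (by linarith)
          linarith
        rw [h1]
        linarith
      hφ := fun u r hu1 hu2 hr3 hr4 => by
        have h1 : 9 * a₁ ^ 2 / 16 ≤ (u - r) ^ 2 := by nlinarith
        have h2 : 3 ≤ (u - r) ^ 2 / (2 * τ) := by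
          rw [le_div_iff₀ (by positivity)]
          linarith
        linarith
      ha1 := by norm_num
      hη := ha₁
      hη1 := ha₁'
      hτ0 := hτ0
      hτT := hτT
      hβ := by positivity
      hr₁ := by linarith
      hβτ := by linarith
      hβa := by linarith
      hR := by norm_num
      hε := hε0
      hε1 := by rw [hε]; linarith
      hεT := by rw [hε]; linarith
      hεT2 := by rw [hε]; linarith
      hεη := by rw [hε]; linarith
      hℓ := hℓ1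
      hℓη := by
        have : a₁ ^ 2 ≤ a₁ := by nlinarith
        have := mul_le_mul_of_nonneg_left this hℓ0.le
        linarith
      hℓη2 := by linarith
      hℓK := by
        have e : K * (4 + 2 * (2 + 1) ^ 2) = K * 22 := by ring
        rw [e]
        linarith
      hℓK2 := by
        have e : 8 * K * 1 * 5 ^ 2 = 200 * K := by ring
        rw [e]
        linarith
      hk1 := hk1
      hk2 := hk2
      hk3 := by
        rw [div_le_iff₀ hℓ0] at h3
        linarith }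
  exact xv_far C hr1 (by linarith) hr2

end Pool.Agent.H487.MI
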