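import Pool.Agent.H487.MI.Res
import Pool.Agent.H354.MI.UG

/-!
# `XV` at a small scale
-/

set_option autoImplicit false

open MeasureTheory Set Filter Topology Metric
open scoped ComplexConjugate

namespace Pool.Agent.H487.MI

open NB NZ

lemma resc_logDeriv {F : ℂ → ℂ} (hF : Differentiable ℂ F) (y ρ : ℝ) (z : ℂ) :
    logDeriv (resc F y ρ) z = ρ * logDeriv F (1 / 2 + y * Complex.I + ρ * (z - 1 / 2)) := by
  have h1 : HasDerivAt (fun w : ℂ => (1 / 2 + y * Complex.I + ρ * (w - 1 / 2) : ℂ)) (ρ * 1) z :=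
    (((hasDerivAt_id z).sub_const _).const_mul (ρ : ℂ)).const_add _
  have h2 : HasDerivAt (resc F y ρ) (deriv F (1 / 2 + y * Complex.I + ρ * (z - 1 / 2)) * (ρ * 1)) z :=
    (hF _).hasDerivAt.comp z h1
  rw [logDeriv_apply, logDeriv_apply, h2.deriv]
  unfold resc
  ring

/-- variation of the twisted size along a segment -/
lemma twist_seg {F : ℂ → ℂ} (hF : Differentiable ℂ F) {a b : ℂ} {ℓ B : ℝ}
    (h : ∀ s : ℝ, 0 ≤ s → s ≤ 1 → F (a + (s : ℂ) * (b - a)) ≠ 0 ∧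
      ‖logDeriv F (a + (s : ℂ) * (b - a)) - ℓ‖ ≤ B) :
    ‖F b‖ ≤ Real.exp (B * ‖b - a‖ + ℓ * (b.re - a.re)) * ‖F a‖ := by
  have h1 := Pool.Agent.H354.MI.grow (f := fun w => F w * Complex.exp (-(ℓ * w))) (hF.mul (by fun_prop)) (a := a) (b := b)
    (B := B) (fun s hs0 hs1 => by
      obtain ⟨h2, h3⟩ := h s hs0 hs1
      refine ⟨mul_ne_zero h2 (Complex.exp_ne_zero _), ?_⟩
      rw [logDeriv_twist hF ℓ h2]
      exact h3)
  simp only [norm_twist] at h1
  have h4 := mul_le_mul_of_nonneg_right h1 (Real.exp_pos (ℓ * b.re)).le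
  rw [mul_assoc, ← Real.exp_add, neg_add_cancel, Real.exp_zero, mul_one] at h4
  refine h4.trans (le_of_eq ?_)
  rw [show Real.exp (B * ‖b - a‖) * (‖F a‖ * Real.exp (-(ℓ * a.re))) * Real.exp (ℓ * b.re) =
    (Real.exp (B * ‖b - a‖) * Real.exp (-(ℓ * a.re)) * Real.exp (ℓ * b.re)) * ‖F a‖ by ring, ← Real.exp_add, ← Real.exp_add]
  congr 2
  ring

/-- the numerical conditions -/
lemma micro_num {ℓ τ : ℝ} (hτ0 : 0 < τ) (hτ1 : τ ≤ 1) (h : 10 ^ 5 ≤ τ * ℓ) :
    (1 + 2) * (((2 * 1 + 4) / τ + 2) * ℓ + 1) * Real.exp (-(1 / 8 * ℓ / 4)) ≤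
      Real.sqrt (4 * Real.pi * (τ / (2 * ℓ))) / 16 ∧
    Real.sqrt (4 * Real.pi * (τ / (2 * ℓ))) ≤ 1 ∧ 200 ≤ ℓ * Real.sqrt (4 * Real.pi * (τ / (2 * ℓ))) := by
  have hℓ : 10 ^ 5 ≤ ℓ := by
    by_contra hcon
    push Not at hcon
    have : τ * ℓ < 1 * 10 ^ 5 := by
      rcases le_total 0 ℓ with h0 | h0
      · calc τ * ℓ ≤ 1 * ℓ := by gcongr
          _ < _ := by linarith
      · have := mul_nonpos_of_nonneg_of_nonpos hτ0.le h0
        linarith
    linarith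
  have hℓ0 : 0 < ℓ := by linarith
  have hpi := Real.pi_gt_three
  have hpi4 := Real.pi_le_four
  have hκsq : 4 * Real.pi * (τ / (2 * ℓ)) = 2 * Real.pi * τ / ℓ := by field_simp; ring
  have hk2 : Real.sqrt (4 * Real.pi * (τ / (2 * ℓ))) ≤ 1 := by
    apply Real.sqrt_le_one.mpr
    rw [hκsq, div_le_one hℓ0]
    have h3 : 2 * Real.pi * τ ≤ 2 * 4 * 1 := by gcongr
    linarith
  have h3 : (200 / ℓ) ≤ Real.sqrt (4 * Real.pi * (τ / (2 * ℓ))) := by
    rw [Real.le_sqrt' (by positivity), hκsq, div_pow, div_le_div_iff₀ (by positivity) hℓ0]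
    have h5 : (200 : ℝ) ^ 2 = 40000 := by norm_num
    rw [h5]
    have h6 : 40000 ≤ 2 * Real.pi * (τ * ℓ) := by
      have : 2 * 3 * (10 ^ 5) ≤ 2 * Real.pi * (τ * ℓ) := by gcongr
      linarith
    calc (40000 : ℝ) * ℓ ≤ (2 * Real.pi * (τ * ℓ)) * ℓ := by gcongr
      _ = 2 * Real.pi * τ * ℓ ^ 2 := by ring
  refine ⟨?_, hk2, ?_⟩
  · have h4 := Real.pow_div_factorial_le_exp (1 / 8 * ℓ / 4) (by positivity) 5
    have h5 : (Nat.factorial 5 : ℝ) = 120 := by norm_num [Nat.factorial]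
    rw [h5] at h4
    have h6 : ℓ ^ 3 ≤ Real.exp (1 / 8 * ℓ / 4) := by
      refine le_trans ?_ h4
      have h7 : (10 ^ 5 : ℝ) ^ 2 ≤ ℓ ^ 2 := by gcongr
      have h8 : (1 / 8 * ℓ / 4) ^ 5 / 120 = ℓ ^ 3 * (ℓ ^ 2 / (32 ^ 5 * 120)) := by ring
      rw [h8]
      have h9 : 1 ≤ ℓ ^ 2 / (32 ^ 5 * 120) := by
        rw [le_div_iff₀ (by norm_num)]
        norm_num at h7 ⊢
        linarith
      nlinarith [pow_pos hℓ0 3]
    have h7 : Real.exp (-(1 / 8 * ℓ / 4)) ≤ 1 / ℓ ^ 3 := by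
      rw [Real.exp_neg, inv_eq_one_div]
      exact one_div_le_one_div_of_le (by positivity) h6
    have h8 : (2 * 1 + 4) / τ ≤ 6 * ℓ / 10 ^ 5 := by
      rw [div_le_div_iff₀ hτ0 (by norm_num)]
      linarith
    have h9 : ((2 * 1 + 4) / τ + 2) * ℓ + 1 ≤ ℓ ^ 2 := by
      have : ((2 * 1 + 4) / τ + 2) * ℓ ≤ (6 * ℓ / 10 ^ 5 + 2) * ℓ := by gcongr
      nlinarith
    calc (1 + 2) * (((2 * 1 + 4) / τ + 2) * ℓ + 1) * Real.exp (-(1 / 8 * ℓ / 4)) ≤ (1 + 2) * ℓ ^ 2 * (1 / ℓ ^ 3) := by gcongr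
      _ = 3 / ℓ := by field_simp; ring
      _ ≤ 200 / ℓ / 16 := by
          rw [div_div, div_le_div_iff₀ hℓ0 (by positivity)]
          linarith
      _ ≤ _ := by gcongr
  · rw [div_le_iff₀ hℓ0] at h3
    linarith

/-- the local hypotheses at the scale `ρ` -/
structure Loc (F : ℂ → ℂ) (L y ρ : ℝ) : Prop where
  ne : ∀ s : ℂ, ρ / 8 ≤ s.re - 1 / 2 → |s.im - y| ≤ 2 * ρ → F s ≠ 0
  lg : ∀ s : ℂ, ρ / 8 ≤ s.re - 1 / 2 → s.re - 1 / 2 ≤ 5 * ρ → |s.im - y| ≤ 2 * ρ →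
    ‖logDeriv F s - (L / 2 : ℝ)‖ ≤ 1 / 50000 * (L / 2)
  up : ∀ u v : ℝ, 0 ≤ u → |v| ≤ ρ → ‖F (pt y u v)‖ ≤ ‖F (pt y (4 * ρ) 0)‖ *
    Real.exp (L / 2 * (u - 4 * ρ) + 1 / 10 ^ 5 * L * (ρ + u ^ 2 / ρ))

theorem xv_micro {F : ℂ → ℂ} {L y ρ τ r₁ : ℝ} (hF : Differentiable ℂ F) (h0 : Type0 F)
    (hfe : ∃ ε : ℂ, ‖ε‖ = 1 ∧ ∀ s, F s = ε * conj (F (1 - conj s))) (hρ : 0 < ρ) (Lo : Loc F L y ρ)
    (hτ0 : 0 < τ) (hτ1 : τ ≤ 1) (h5 : 10 ^ 5 ≤ τ * (ρ * L / 2)) (hr1 : 127 / 128 ≤ τ + r₁) (hr2 : -(1 / 128) ≤ r₁) :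
    XV (resc F y ρ) 1 (1 / 50000 * (ρ * L / 2)) (‖F (pt y (4 * ρ) 0)‖ * Real.exp (-(4 * (ρ * L / 2)))) (ρ * L / 2) 0 τ
      (1 / 4) (1 / 4096) 4 (1 / 8) 1 r₁ (fun u => u) := by
  set ℓ : ℝ := ρ * L / 2 with hℓ
  have hℓ5 : 10 ^ 5 ≤ ℓ := by
    by_contra hcon
    push Not at hcon
    have : τ * ℓ < 1 * 10 ^ 5 := by
      rcases le_total 0 ℓ with h0 | h0
      · calc τ * ℓ ≤ 1 * ℓ := by gcongr
          _ < _ := by linarith
      · have := mul_nonpos_of_nonneg_of_nonpos hτ0.le h0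
        linarith
    linarith
  have hℓ0 : 0 < ℓ := by linarith
  have hL0 : 0 < L := by
    rw [hℓ] at hℓ0
    by_contra hcon
    push Not at hcon
    have := mul_nonpos_of_nonneg_of_nonpos hρ.le hcon
    linarith
  have hF4 : F (pt y (4 * ρ) 0) ≠ 0 := Lo.ne _ (by rw [pt_re]; linarith) (by rw [pt_im]; simp; linarith)
  set M : ℝ := ‖F (pt y (4 * ρ) 0)‖ * Real.exp (-(4 * ℓ)) with hM
  have hM0 : 0 < M := mul_pos (norm_pos_iff.mpr hF4) (Real.exp_pos _)
  have hM4 : ‖F (pt y (4 * ρ) 0)‖ = M * Real.exp (4 * ℓ) := by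
    rw [hM, mul_assoc, ← Real.exp_add]
    simp
  have Xd := resc_diff hF y ρ
  -- the bound on the right
  have up0 : ∀ u v : ℝ, 0 ≤ u → |v| ≤ 1 → ‖resc F y ρ (pt 0 u v)‖ ≤ M * Real.exp (ℓ * u + 1 / 50000 * ℓ * (1 + u ^ 2)) := by
    intro u v hu hv
    rw [resc_pt]
    have h1 := Lo.up (ρ * u) (ρ * v) (by positivity) (by
      rw [abs_mul, abs_of_pos hρ]
      nlinarith)
    refine h1.trans (le_of_eq ?_)
    rw [hM4, mul_assoc, ← Real.exp_add]
    congr 2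
    rw [hℓ]
    field_simp
    ring
  have hfe' := resc_fe hfe y ρ
  have hsym : ∀ u v : ℝ, ‖resc F y ρ (pt 0 (-u) v)‖ = ‖resc F y ρ (pt 0 u v)‖ := by
    intro u v
    obtain ⟨ε', hε', hfe⟩ := hfe'
    rw [hfe (pt 0 (-u) v), norm_mul, hε', one_mul, RCLike.norm_conj]
    congr 2
    apply Complex.ext
    · simp only [Complex.sub_re, Complex.one_re, Complex.conj_re, pt_re]; ring
    · simp only [Complex.sub_im, Complex.one_im, Complex.conj_im, pt_im]; ring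
  have hmap : ∀ z : ℂ, (1 / 2 + (y : ℂ) * Complex.I + (ρ : ℂ) * (z - 1 / 2)).re - 1 / 2 = ρ * (z.re - 1 / 2) ∧
      (1 / 2 + (y : ℂ) * Complex.I + (ρ : ℂ) * (z - 1 / 2)).im - y = ρ * z.im := by
    intro z
    have e1 : (1 / 2 : ℂ).re = 1 / 2 := by norm_num
    have e2 : (1 / 2 : ℂ).im = 0 := by norm_num
    constructor
    · simp only [Complex.add_re, Complex.mul_re, Complex.ofReal_re, Complex.ofReal_im, Complex.I_re, Complex.I_im,
        Complex.sub_re, Complex.sub_im, e1, e2]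
      ring
    · simp only [Complex.add_im, Complex.mul_im, Complex.ofReal_re, Complex.ofReal_im, Complex.I_re, Complex.I_im,
        Complex.sub_re, Complex.sub_im, e1, e2]
      ring
  have hsc : ∀ x : ℝ, |x| ≤ 2 → |ρ * x| ≤ 2 * ρ := by
    intro x hx
    rw [abs_mul, abs_of_pos hρ]
    nlinarith
  obtain ⟨n1, n2, n3⟩ := micro_num hτ0 hτ1 h5
  refine
    { diff := Xd
      slow := Type0.slow Xd.continuous (resc_type0 h0 y ρ)
      fe := hfe'
      hK := by linarith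
      hM := hM0
      upx := ?_
      G := ?_
      strip := ?_
      hφ := ?_
      ha1 := le_rfl
      hη := by norm_num
      hη1 := by norm_num
      hτ0 := hτ0
      hτT := hτ1
      hβ := by norm_num
      hr₁ := by linarith
      hβτ := by linarith
      hβa := by norm_num
      hR := by norm_num
      hε := by norm_num
      hε1 := by norm_num
      hεT := by norm_num
      hεT2 := by norm_num
      hεη := by norm_num
      hℓ := by linarith
      hℓη := by linarith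
      hℓη2 := by linarith
      hℓK := by linarith
      hℓK2 := by linarith
      hk1 := n1
      hk2 := n2
      hk3 := n3 }
  · intro u v hv
    have h1 : ‖resc F y ρ (pt 0 u v)‖ ≤ M * Real.exp (ℓ * |u| + 1 / 50000 * ℓ * (1 + u ^ 2)) := by
      rcases le_total 0 u with hu | hu
      · rw [abs_of_nonneg hu]
        exact up0 u v hu hv
      · have h2 := up0 (-u) v (by linarith) hv
        rw [hsym, neg_sq] at h2
        rwa [abs_of_nonpos hu]
    refine h1.trans (mul_le_mul_of_nonneg_left (Real.exp_le_exp.mpr ?_) hM0.le)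
    have h2 : ℓ * |u| ≤ ℓ * max |u| 1 := by gcongr; exact le_max_left _ _
    have h3 : 1 / 50000 * ℓ * (1 + u ^ 2) ≤ 1 / 50000 * ℓ * (1 + u ^ 2 + v ^ 2) :=
      mul_le_mul_of_nonneg_left (by have := sq_nonneg v; linarith) (by positivity)
    linarith
  · refine good_of (H := resc F y ρ) (r := 1 / 8) (ε' := 1 / 50000) Xd hM0 hℓ0 (by norm_num) (by norm_num) (by norm_num)
      (by norm_num) (by norm_num) (by norm_num) (by norm_num) (fun z z1 z2 => ?_) (fun z z1 z2 z3 => ?_) (fun v hv => ?_)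
    · obtain ⟨e1, e2⟩ := hmap z
      refine Lo.ne _ ?_ ?_
      · rw [e1]
        nlinarith
      · rw [e2]
        rw [sub_zero] at z2
        exact hsc _ (by linarith)
    · obtain ⟨e1, e2⟩ := hmap z
      have h2 := Lo.lg (1 / 2 + (y : ℂ) * Complex.I + (ρ : ℂ) * (z - 1 / 2)) (by rw [e1]; nlinarith) (by rw [e1]; nlinarith)
        (by rw [e2]; rw [sub_zero] at z3; exact hsc _ (by linarith))
      rw [resc_logDeriv hF]
      have e3 : ((ρ : ℂ) * logDeriv F (1 / 2 + (y : ℂ) * Complex.I + (ρ : ℂ) * (z - 1 / 2)) - (ℓ : ℂ)) =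
          ρ * (logDeriv F (1 / 2 + (y : ℂ) * Complex.I + (ρ : ℂ) * (z - 1 / 2)) - (L / 2 : ℝ)) := by
        rw [hℓ]
        push_cast
        ring
      rw [e3, norm_mul, Complex.norm_real, Real.norm_of_nonneg hρ.le]
      calc ρ * ‖logDeriv F (1 / 2 + (y : ℂ) * Complex.I + (ρ : ℂ) * (z - 1 / 2)) - (L / 2 : ℝ)‖ ≤
          ρ * (1 / 50000 * (L / 2)) := by gcongr
        _ = 1 / 50000 * ℓ := by rw [hℓ]; ring
    · -- the vertical segment
      have hseg : ∀ v₁ v₂ : ℝ, |v₁| ≤ ρ → |v₂| ≤ ρ → |v₁ - v₂| ≤ ρ →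
          ‖F (pt y (4 * ρ) v₁)‖ ≤ Real.exp (1 / 50000 * ℓ) * ‖F (pt y (4 * ρ) v₂)‖ := by
        intro v₁ v₂ h1 h2 h12
        have hp : ∀ s : ℝ, pt y (4 * ρ) v₂ + (s : ℂ) * (pt y (4 * ρ) v₁ - pt y (4 * ρ) v₂) = pt y (4 * ρ) ((1 - s) * v₂ + s * v₁) := by
          intro s
          unfold pt
          push_cast
          ring
        have h3 := twist_seg hF (a := pt y (4 * ρ) v₂) (b := pt y (4 * ρ) v₁) (ℓ := L / 2) (B := 1 / 50000 * (L / 2))
          (fun s hs0 hs1 => by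
            rw [hp s]
            have h4 : |(1 - s) * v₂ + s * v₁| ≤ 2 * ρ := by
              refine (abs_add_le _ _).trans ?_
              rw [abs_mul, abs_mul, abs_of_nonneg (by linarith : 0 ≤ 1 - s), abs_of_nonneg hs0]
              nlinarith
            exact ⟨Lo.ne _ (by rw [pt_re]; linarith) (by rw [pt_im, add_sub_cancel_left]; exact h4),
              Lo.lg _ (by rw [pt_re]; linarith) (by rw [pt_re]; linarith) (by rw [pt_im, add_sub_cancel_left]; exact h4)⟩)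
        refine h3.trans (mul_le_mul_of_nonneg_right (Real.exp_le_exp.mpr ?_) (norm_nonneg _))
        have e1 : pt y (4 * ρ) v₁ - pt y (4 * ρ) v₂ = ((v₁ - v₂ : ℝ) : ℂ) * Complex.I := by
          unfold pt
          push_cast
          ring
        rw [e1, norm_mul, Complex.norm_I, mul_one, Complex.norm_real, Real.norm_eq_abs, pt_re, pt_re, sub_self, mul_zero,
          add_zero]
        calc 1 / 50000 * (L / 2) * |v₁ - v₂| ≤ 1 / 50000 * (L / 2) * ρ := by gcongr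
          _ = 1 / 50000 * ℓ := by rw [hℓ]; ring
      have hv1 : |ρ * v| ≤ ρ := by
        rw [abs_mul, abs_of_pos hρ]
        nlinarith
      have e4 : resc F y ρ (pt 0 4 v) = F (pt y (4 * ρ) (ρ * v)) := by
        rw [resc_pt]
        congr 2
        ring
      rw [e4]
      have h1 := hseg (ρ * v) 0 hv1 (by simpa using hρ.le) (by rwa [sub_zero])
      have h2 := hseg 0 (ρ * v) (by simpa using hρ.le) hv1 (by rwa [zero_sub, abs_neg])
      rw [hM4] at h1 h2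
      constructor
      · have h3 := mul_le_mul_of_nonneg_left h2 (Real.exp_pos (-(1 / 50000 * ℓ))).le
        rw [← mul_assoc (Real.exp _) (Real.exp _), ← Real.exp_add, neg_add_cancel, Real.exp_zero, one_mul] at h3
        refine le_trans ?_ h3
        rw [mul_left_comm, ← Real.exp_add]
        refine mul_le_mul_of_nonneg_left (Real.exp_le_exp.mpr ?_) hM0.le
        linarith
      · refine h1.trans ?_
        rw [mul_left_comm, ← Real.exp_add]
        refine mul_le_mul_of_nonneg_left (Real.exp_le_exp.mpr ?_) hM0.le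
        linarith
  · intro u v hu1 hu2 hv
    refine (up0 u v hu1 hv).trans (mul_le_mul_of_nonneg_left (Real.exp_le_exp.mpr ?_) hM0.le)
    have h1 : u ^ 2 ≤ 1 := by nlinarith
    have h2 : 1 / 50000 * ℓ * (1 + u ^ 2) ≤ 1 / 50000 * ℓ * 2 := by gcongr; linarith
    linarith
  · intro u r hu1 hu2 hr3 hr4
    have h1 : (u - r) ^ 2 / (2 * τ) + (r + τ / 2) - (u + 1 / 8) = ((u - r - τ) ^ 2 - τ / 4) / (2 * τ) := by
      field_simp
      ring
    have h2 : τ / 4 ≤ (u - r - τ) ^ 2 := by nlinarith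
    have h3 : 0 ≤ ((u - r - τ) ^ 2 - τ / 4) / (2 * τ) := div_nonneg (by linarith) (by linarith)
    linarith

/-- consequences for `F` itself, to the right -/
theorem micro_far {F : ℂ → ℂ} {L y ρ t : ℝ} (hF : Differentiable ℂ F) (h0 : Type0 F)
    (hfe : ∃ ε : ℂ, ‖ε‖ = 1 ∧ ∀ s, F s = ε * conj (F (1 - conj s))) (hρ : 0 < ρ) (Lo : Loc F L y ρ) (hL : 0 < L)
    (ht : 10 ^ 5 ≤ t * L ^ 2 / 2) (ht1 : t * L ≤ ρ) :
    heat t F (1 / 2 + y * Complex.I + ρ) ≠ 0 := by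
  have ht0 : 0 < t := by
    by_contra hcon
    push Not at hcon
    have : t * L ^ 2 ≤ 0 := mul_nonpos_of_nonpos_of_nonneg hcon (by positivity)
    linarith
  have h5 : t * L / ρ * (ρ * L / 2) = t * L ^ 2 / 2 := by field_simp
  have C := xv_micro (τ := t * L / ρ) (r₁ := 1) hF h0 hfe hρ Lo (by positivity) (by rwa [div_le_one hρ]) (by rw [h5]; exact ht)
    (by have : 0 ≤ t * L / ρ := by positivity
        linarith) (by norm_num)
  have h1 := xv_far C (r := 1) le_rfl (by norm_num) le_rfl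
  have e1 : t * L / ρ / (2 * (ρ * L / 2)) = t / ρ ^ 2 := by field_simp
  rw [e1, heat_resc F hρ (by positivity)] at h1
  have e2 : ρ ^ 2 * (t / ρ ^ 2) = t := by field_simp
  rw [e2] at h1
  convert h1 using 2
  push_cast
  ring

/-- consequences for `F` itself, near the line -/
theorem micro_near {F : ℂ → ℂ} {L y t r : ℝ} (hF : Differentiable ℂ F) (h0 : Type0 F)
    (hfe : ∃ ε : ℂ, ‖ε‖ = 1 ∧ ∀ s, F s = ε * conj (F (1 - conj s))) (hL : 0 < L) (ht : 10 ^ 5 ≤ t * L ^ 2 / 2)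
    (Lo : Loc F L y (t * L)) (hr : |r| ≤ t * L) (hz : heat t F (1 / 2 + y * Complex.I + r) = 0) :
    r = 0 ∧ deriv (heat t F) (1 / 2 + y * Complex.I) ≠ 0 := by
  have ht0 : 0 < t := by
    by_contra hcon
    push Not at hcon
    have : t * L ^ 2 ≤ 0 := mul_nonpos_of_nonpos_of_nonneg hcon (by positivity)
    linarith
  set ρ : ℝ := t * L with hρd
  have hρ : 0 < ρ := by positivity
  have h5 : (1 : ℝ) * (ρ * L / 2) = t * L ^ 2 / 2 := by rw [hρd]; ring
  have C := xv_micro (τ := 1) (r₁ := -(1 / 128)) hF h0 hfe hρ Lo (by norm_num) le_rfl (by rw [h5]; exact ht)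
    (by norm_num) (by norm_num)
  have e1 : (1 : ℝ) / (2 * (ρ * L / 2)) = t / ρ ^ 2 := by rw [hρd]; field_simp
  have e2 : ρ ^ 2 * (t / ρ ^ 2) = t := by field_simp
  have hst : 0 < t / ρ ^ 2 := by positivity
  have hheat : ∀ s : ℂ, heat (t / ρ ^ 2) (resc F y ρ) s = heat t F (1 / 2 + y * Complex.I + ρ * (s - 1 / 2)) := by
    intro s
    rw [heat_resc F hρ hst, e2]
  have hr' : |r / ρ| ≤ 1 := by
    rw [abs_div, abs_of_pos hρ, div_le_one hρ]
    exact hr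
  have h1 := xv_near C (r := r / ρ) (by norm_num) hr' (by
    rw [e1, hheat, ← hz]
    congr 1
    have : (ρ : ℂ) ≠ 0 := by exact_mod_cast hρ.ne'
    push_cast
    field_simp
    ring)
  obtain ⟨h2, h3⟩ := h1
  refine ⟨?_, ?_⟩
  · have := hρ.ne'
    field_simp at h2
    simpa using h2
  · intro h4
    apply h3
    rw [e1]
    have e3 : heat (t / ρ ^ 2) (resc F y ρ) = fun s => heat t F (1 / 2 + y * Complex.I + ρ * (s - 1 / 2)) := funext hheat
    rw [e3]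
    have e4 : (fun s : ℂ => heat t F (1 / 2 + (y : ℂ) * Complex.I + (ρ : ℂ) * (s - 1 / 2))) =
        fun s : ℂ => heat t F ((ρ : ℂ) * s + (1 / 2 + (y : ℂ) * Complex.I - (ρ : ℂ) / 2)) := by
      funext s
      congr 1
      ring
    rw [e4]
    have e5 := deriv_comp_mul_left (ρ : ℂ) (fun s => heat t F (s + (1 / 2 + (y : ℂ) * Complex.I - (ρ : ℂ) / 2)))
      (1 / 2 + ((0 : ℝ) : ℂ) * Complex.I)
    rw [deriv_comp_add_const] at e5
    rw [e5]
    have e6 : (ρ : ℂ) * (1 / 2 + ((0 : ℝ) : ℂ) * Complex.I) + (1 / 2 + (y : ℂ) * Complex.I - (ρ : ℂ) / 2) =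
        1 / 2 + (y : ℂ) * Complex.I := by
      push_cast
      ring
    rw [e6, h4, smul_zero]

end Pool.Agent.H487.MI
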