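import Pool.Agent.H487.MI.Int

/-!
# Monotonicity of the averages, with a bound on the critical line
-/

set_option autoImplicit false

open MeasureTheory Set Filter Topology Metric
open scoped ComplexConjugate

namespace Pool.Agent.H487.MI

open NB NZ

variable {X : ℂ → ℂ} {a K M ℓ y τ β ε R η T₀ r₁ r : ℝ} {φ : ℝ → ℝ} {w : ℂ}

/-- size of the right average -/
lemma rr_low (C : XV X a K M ℓ y τ β ε R η T₀ r₁ φ) (S : SP X M ℓ y τ ε r w) (h1 : r₁ ≤ r) (h2 : r ≤ a) :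
    0 < ‖X w * gk (τ / (2 * ℓ)) (pt y r 0) w‖ ∧
    1 / 2 * Real.sqrt (4 * Real.pi * (τ / (2 * ℓ))) * ‖X w * gk (τ / (2 * ℓ)) (pt y r 0) w‖ ≤
      ‖RR (τ / (2 * ℓ)) X (1 / 2 + y * Complex.I) r‖ := by
  have hs := size_sp C S h1 h2
  have hM := C.hM
  have h3 := (est C S h1 h2).1
  refine ⟨lt_of_lt_of_le (by positivity) hs, ?_⟩
  have h4 := norm_sub_norm_le (((Real.sqrt (4 * Real.pi * (τ / (2 * ℓ))) : ℝ) : ℂ) *
        (X w * gk (τ / (2 * ℓ)) (pt y r 0) w)) (RR (τ / (2 * ℓ)) X (1 / 2 + y * Complex.I) r)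
  rw [norm_sub_rev, norm_mul, Complex.norm_real, Real.norm_of_nonneg (Real.sqrt_nonneg _)] at h4
  linarith

/-- near the line the modulus of the right average increases -/
lemma re_pos (C : XV X a K M ℓ y τ β ε R η T₀ r₁ φ) (hr₁ : r₁ ≤ -(η / 16)) (h : |r| ≤ η / 16) :
    0 < (RD (τ / (2 * ℓ)) X (1 / 2 + y * Complex.I) r * conj (RR (τ / (2 * ℓ)) X (1 / 2 + y * Complex.I) r)).re := by
  have c1 := C.hη
  have c1' := C.hη1
  have c2 := C.hτ0
  have c3 := C.hτT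
  have c4 := C.hβτ
  have c6 := C.hℓ
  have c7 := C.ha1
  have c8 := C.hε
  have c11 := C.hεη
  have c12 := C.hk3
  obtain ⟨s1, s2⟩ := C.small
  have c0 := C.hr₁
  obtain ⟨r1', r2⟩ := abs_le.mp h
  have r1 := hr₁.trans r1'
  obtain ⟨w, S⟩ := C.exists_sp r1 (by linarith)
  obtain ⟨l1, l2⟩ := rr_low C S r1 (by linarith)
  have e2 := (est C S r1 (by linarith)).2
  obtain ⟨p1, p2⟩ := S.pos
  obtain ⟨q1, q2⟩ := abs_le.mp p1
  set κ : ℝ := Real.sqrt (4 * Real.pi * (τ / (2 * ℓ))) with hκ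
  set W : ℂ := X w * gk (τ / (2 * ℓ)) (pt y r 0) w with hW
  set Q : ℂ := RR (τ / (2 * ℓ)) X (1 / 2 + y * Complex.I) r with hQ
  set Q' : ℂ := RD (τ / (2 * ℓ)) X (1 / 2 + y * Complex.I) r with hQ'
  set G : ℂ := logDeriv X w with hG
  have hκ0 : 0 < κ := by
    rcases (Real.sqrt_nonneg (4 * Real.pi * (τ / (2 * ℓ)))).lt_or_eq with h | h
    · exact h
    · rw [hκ, ← h, mul_zero] at c12
      linarith
  have hQ0 : 0 < ‖Q‖ := lt_of_lt_of_le (by positivity) l2
  have hGre : ℓ / 2 ≤ G.re := by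
    have h3 := C.G.lg w (by linarith) (by linarith [C.hR, C.ha]) (by linarith)
    have h4 := (Complex.abs_re_le_norm (G - (ℓ : ℂ))).trans h3
    rw [Complex.sub_re, Complex.ofReal_re] at h4
    have h5 := (abs_le.mp h4).1
    have h6 : ε ≤ 1 / 2 := by
      have h7 : 0 ≤ ε * (4 * T₀) := by
        have : 0 ≤ T₀ := by linarith
        positivity
      linarith
    have h8 : ε * ℓ ≤ 1 / 2 * ℓ := by gcongr
    linarith
  have hD : ‖Q' - G * Q‖ ≤ 2 * ℓ / 5 * ‖Q‖ := by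
    refine e2.trans ?_
    -- `40 ‖W‖ ≤ (2ℓ/5) ½ κ ‖W‖`
    have h3 : 40 * ‖W‖ ≤ 2 * ℓ / 5 * (1 / 2 * κ * ‖W‖) := by
      have h4 : 200 * ‖W‖ ≤ ℓ * κ * ‖W‖ := by gcongr
      linarith
    exact h3.trans (by gcongr)
  have e3 : Q' * conj Q = G * ((‖Q‖ ^ 2 : ℝ) : ℂ) + (Q' - G * Q) * conj Q := by
    have h3 : Q * conj Q = ((‖Q‖ ^ 2 : ℝ) : ℂ) := by rw [Complex.mul_conj, Complex.normSq_eq_norm_sq]
    rw [← h3]
    ring
  rw [e3, Complex.add_re, Complex.re_mul_ofReal]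
  have h3 : -(‖Q' - G * Q‖ * ‖Q‖) ≤ ((Q' - G * Q) * conj Q).re := by
    have h4 := Complex.abs_re_le_norm ((Q' - G * Q) * conj Q)
    rw [norm_mul, RCLike.norm_conj] at h4
    exact (abs_le.mp h4).1
  have h4 : ‖Q' - G * Q‖ * ‖Q‖ ≤ 2 * ℓ / 5 * ‖Q‖ * ‖Q‖ := by gcongr
  have h5 : ℓ / 2 * ‖Q‖ ^ 2 ≤ G.re * ‖Q‖ ^ 2 := by gcongr
  have h6 : 0 < ℓ * ‖Q‖ ^ 2 := by positivity
  have h7 : 2 * ℓ / 5 * ‖Q‖ * ‖Q‖ = 2 / 5 * (ℓ * ‖Q‖ ^ 2) := by ring
  have h8 : ℓ / 2 * ‖Q‖ ^ 2 = 1 / 2 * (ℓ * ‖Q‖ ^ 2) := by ring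
  linarith

/-- the left average is smaller -/
lemma left_small (C : XV X a K M ℓ y τ β ε R η T₀ r₁ φ) (h0 : r₁ ≤ r) (h1 : η / 16 ≤ r) (h2 : r ≤ a) :
    ‖RR (τ / (2 * ℓ)) X (1 / 2 + y * Complex.I) (-r)‖ < ‖RR (τ / (2 * ℓ)) X (1 / 2 + y * Complex.I) r‖ := by
  have c1 := C.hη
  have c1' := C.hη1
  have c2 := C.hτ0
  have c3 := C.hτT
  have c4 := C.hβτ
  have c5 := C.hβ
  have c5' := C.hβa
  have c6 := C.hℓ
  have c7 := C.ha1
  have c8 := C.hε
  have c9 := C.hε1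
  have c10 := C.hR
  have c11 := C.hεη
  have c12 := C.hk3
  have c13 := C.hk1
  have c14 := C.hℓη
  have c15 := C.hℓK2
  have hM := C.hM
  have hK := C.hK
  have hτ0 : 0 < τ := by linarith
  have hT0 : 0 < T₀ := by linarith
  have hR0 : 0 < R := by linarith
  obtain ⟨s1, s2⟩ := C.small
  have c0 := C.hr₁
  obtain ⟨w, S⟩ := C.exists_sp h0 h2
  obtain ⟨l1, l2⟩ := rr_low C S h0 h2
  have hsize := size_sp C S h0 h2
  have hstrip0 := C.strip
  have hup := C.G.up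
  set t : ℝ := τ / (2 * ℓ) with ht
  have ht0 : 0 < t := by positivity
  set κ : ℝ := Real.sqrt (4 * Real.pi * t) with hκ
  set W : ℂ := X w * gk t (pt y r 0) w with hW
  have hκ0 : 0 < κ := by
    rcases (Real.sqrt_nonneg (4 * Real.pi * t)).lt_or_eq with h | h
    · exact h
    · rw [hκ, ← h, mul_zero] at c12
      linarith
  set B₁ : ℝ := M * Real.exp (ℓ * (r + τ / 2 - η) + 2 * ε * ℓ) with hB₁
  set B₂ : ℝ := M * Real.exp (ℓ * (τ / 2 - r) + ε * ℓ) with hB₂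
  have hB₁0 : 0 < B₁ := by positivity
  have hB₂0 : 0 < B₂ := by positivity
  have hετ : ε * (3 + 4 * τ) ≤ η / 64 := by
    refine le_trans ?_ c11
    gcongr
  have hετ0 : 0 < ε * τ := by positivity
  -- comparison with `W`
  have hB₁W : B₁ ≤ ‖W‖ * Real.exp (-(η * ℓ / 4)) := by
    refine le_trans ?_ (mul_le_mul_of_nonneg_right hsize (Real.exp_pos _).le)
    rw [hB₁, mul_assoc M, ← Real.exp_add]
    refine mul_le_mul_of_nonneg_left (Real.exp_le_exp.mpr ?_) hM.le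
    have h3 : r + τ / 2 - η + 2 * ε + ε * (1 + 3 * τ) + η / 4 ≤ r + τ / 2 := by linarith
    have h4 := mul_le_mul_of_nonneg_left h3 (by linarith : (0:ℝ) ≤ ℓ)
    linarith
  have hB₂W : B₂ ≤ ‖W‖ * (1 / 16) := by
    refine le_trans ?_ (mul_le_mul hsize exp_neg_four (Real.exp_pos _).le (norm_nonneg _))
    rw [hB₂, mul_assoc M, ← Real.exp_add]
    refine mul_le_mul_of_nonneg_left (Real.exp_le_exp.mpr ?_) hM.le
    have h3 : τ / 2 - r + ε + ε * (1 + 3 * τ) + η / 16 ≤ r + τ / 2 := by linarith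
    have h4 := mul_le_mul_of_nonneg_left h3 (by linarith : (0:ℝ) ≤ ℓ)
    linarith
  -- the pointwise bound
  set g : ℝ → ℝ := fun x => (Ioc (0 : ℝ) β).indicator (fun _ => B₁) x + B₂ * Real.exp (-((x - (τ - r)) ^ 2 / (4 * (2 * t)))) with hg
  have e2 : ∀ x : ℝ, x ^ 2 / (4 * t) = x ^ 2 * (ℓ / (2 * τ)) := fun x => by rw [ht]; field_simp; ring
  have e3 : ∀ x : ℝ, x ^ 2 / (4 * (2 * t)) = x ^ 2 * (ℓ / (4 * τ)) := fun x => by rw [ht]; field_simp
  have hcpt : ∀ x : ℝ, 1 / 2 + (y : ℂ) * Complex.I + x = pt y x 0 := fun x => by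
    apply Complex.ext <;> simp
  have hpt : ∀ x : ℝ, 0 < x → ‖X (1 / 2 + y * Complex.I + x) * ((Real.exp (-((x - -r) ^ 2 / (4 * t))) : ℝ) : ℂ)‖ ≤ g x := by
    intro x hx
    rw [norm_mul, Complex.norm_real, Real.norm_of_nonneg (Real.exp_pos _).le, hcpt, sub_neg_eq_add]
    simp only [hg]
    have hg2 : 0 ≤ B₂ * Real.exp (-((x - (τ - r)) ^ 2 / (4 * (2 * t)))) := by positivity
    rcases le_or_gt x β with hxβ | hxβ
    · rw [indicator_of_mem (show x ∈ Ioc (0 : ℝ) β from ⟨hx, hxβ⟩)]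
      have h3 := hstrip0 x 0 hx.le hxβ (by simp)
      have h4 := C.hφ x r hx.le hxβ h0 h2
      have h5 : ‖X (pt y x 0)‖ * Real.exp (-((x + r) ^ 2 / (4 * t))) ≤ B₁ := by
        refine (mul_le_mul_of_nonneg_right h3 (Real.exp_pos _).le).trans ?_
        rw [hB₁, mul_assoc M, ← Real.exp_add, e2]
        refine mul_le_mul_of_nonneg_left (Real.exp_le_exp.mpr ?_) hM.le
        have h6 : (x - r) ^ 2 * (ℓ / (2 * τ)) ≤ (x + r) ^ 2 * (ℓ / (2 * τ)) := by
          have : (x - r) ^ 2 ≤ (x + r) ^ 2 := by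
            have : 0 ≤ x * r := mul_nonneg hx.le (by linarith)
            linarith
          gcongr
        have h7 : φ x + η - (x - r) ^ 2 / (2 * τ) ≤ r + τ / 2 := by linarith
        have h8 := mul_le_mul_of_nonneg_left h7 (by linarith : (0:ℝ) ≤ ℓ)
        have e9 : (x - r) ^ 2 * (ℓ / (2 * τ)) = ℓ * ((x - r) ^ 2 / (2 * τ)) := by ring
        linarith
      linarith
    · rw [indicator_of_notMem (show x ∉ Ioc (0 : ℝ) β from fun h => absurd h.2 (not_le.mpr hxβ)), zero_add]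
      have k1 : ℓ * x - (x + r) ^ 2 * (ℓ / (2 * τ)) = ℓ * (τ / 2 - r) - 2 * ((x - (τ - r)) ^ 2 * (ℓ / (4 * τ))) := by
        field_simp
        ring
      have k2 : 0 ≤ (x - (τ - r)) ^ 2 * (ℓ / (4 * τ)) := by positivity
      have k3 : 0 ≤ ε * ℓ := by positivity
      rcases le_or_gt x R with hxR | hxR
      · have h3 := hup x 0 hxβ.le hxR (by simp)
        rw [zero_div, add_zero] at h3
        rw [e2, e3, hB₂, mul_assoc M, ← Real.exp_add]
        refine (mul_le_mul_of_nonneg_right h3 (Real.exp_pos _).le).trans ?_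
        rw [mul_assoc M, ← Real.exp_add]
        refine mul_le_mul_of_nonneg_left (Real.exp_le_exp.mpr ?_) hM.le
        linarith
      · have h3 := C.upx x 0 (by simp)
        have hmax : max |x| a = x := by
          rw [abs_of_pos hx]
          exact max_eq_left (by linarith)
        rw [hmax] at h3
        rw [e2, e3, hB₂, mul_assoc M, ← Real.exp_add]
        refine (mul_le_mul_of_nonneg_right h3 (Real.exp_pos _).le).trans ?_
        rw [mul_assoc M, ← Real.exp_add]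
        refine mul_le_mul_of_nonneg_left (Real.exp_le_exp.mpr ?_) hM.le
        have h4 : K * (1 + x ^ 2 + 0 ^ 2) ≤ (x - (τ - r)) ^ 2 * (ℓ / (4 * τ)) := by
          have h5 : 2 * x / R ≤ x - (τ - r) := by
            rw [div_le_iff₀ hR0]
            have g1 := mul_nonneg (by linarith : 0 ≤ x - R) (by linarith : 0 ≤ R - 2)
            have g2 := mul_nonneg hR0.le (by linarith : 0 ≤ R - 2 - T₀)
            have g3 := mul_nonneg hR0.le (by linarith : 0 ≤ T₀ - (τ - r))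
            linarith
          have h6 : 0 ≤ 2 * x / R := by positivity
          have h7 := pow_le_pow_left₀ h6 h5 2
          have h8 : (2 * x / R) ^ 2 * (ℓ / (4 * τ)) ≤ (x - (τ - r)) ^ 2 * (ℓ / (4 * τ)) := by gcongr
          refine le_trans ?_ h8
          have e5 : (2 * x / R) ^ 2 * (ℓ / (4 * τ)) = x ^ 2 * (ℓ / (R ^ 2 * τ)) := by field_simp; ring
          rw [e5]
          have hx1 : 1 ≤ x ^ 2 := one_le_pow₀ (by linarith : 1 ≤ x)
          have h9 : K * (1 + x ^ 2 + 0 ^ 2) ≤ x ^ 2 * (2 * K) := by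
            have g1 := mul_nonneg (by linarith : 0 ≤ K) (sub_nonneg.mpr hx1)
            linarith
          refine h9.trans (mul_le_mul_of_nonneg_left ?_ (sq_nonneg x))
          rw [le_div_iff₀ (by positivity)]
          have h10 : 2 * K * (R ^ 2 * τ) ≤ 2 * K * (R ^ 2 * T₀) := by gcongr
          have h11 : 0 ≤ K * R ^ 2 * T₀ := by positivity
          linarith
        linarith
  obtain ⟨i1, v1⟩ := gint (t := 2 * t) (by positivity) (τ - r)
  have hgi : Integrable g := by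
    refine Integrable.add ?_ (i1.const_mul B₂)
    exact (integrable_indicator_iff measurableSet_Ioc).mpr (integrableOn_const (by simp))
  have hg0 : ∀ x, 0 ≤ g x := fun x => by
    simp only [hg]
    have : 0 ≤ (Ioc (0 : ℝ) β).indicator (fun _ => B₁) x := indicator_nonneg (fun _ _ => hB₁0.le) x
    positivity
  have hgint : ∫ x, g x = β * B₁ + B₂ * Real.sqrt (4 * Real.pi * (2 * t)) := by
    simp only [hg]
    rw [integral_add ((integrable_indicator_iff measurableSet_Ioc).mpr (integrableOn_const (by simp))) (i1.const_mul B₂),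
      integral_const_mul, v1, integral_indicator measurableSet_Ioc, setIntegral_const]
    congr 1
    rw [Real.volume_real_Ioc_of_le c5.le, sub_zero, smul_eq_mul]
  have hfin : ‖RR t X (1 / 2 + y * Complex.I) (-r)‖ ≤ β * B₁ + B₂ * Real.sqrt (4 * Real.pi * (2 * t)) := by
    rw [← hgint]
    unfold RR
    refine (norm_integral_le_of_norm_le (hgi.integrableOn (s := Ioi 0)) ?_).trans ?_
    · exact (ae_restrict_mem measurableSet_Ioi).mono fun x hx => hpt x hx
    · exact setIntegral_le_integral hgi (Eventually.of_forall hg0)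
  have hsq : Real.sqrt (4 * Real.pi * (2 * t)) ≤ 2 * κ := by
    have h3 : Real.sqrt (4 * Real.pi * (2 * t)) ≤ Real.sqrt (4 * (4 * Real.pi * t)) := by
      apply Real.sqrt_le_sqrt
      have : 0 < Real.pi * t := mul_pos Real.pi_pos ht0
      linarith
    refine h3.trans (le_of_eq ?_)
    rw [Real.sqrt_mul (by norm_num), hκ]
    congr 1
    rw [show (4 : ℝ) = 2 ^ 2 by norm_num]
    exact Real.sqrt_sq (by norm_num)
  have hsmall : (a + 2) * Real.exp (-(η * ℓ / 4)) ≤ κ / 16 := by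
    refine le_trans ?_ c13
    refine mul_le_mul_of_nonneg_right ?_ (Real.exp_pos _).le
    have hC3 : 0 ≤ (a + 2) * (((2 * a + 4) / τ + 2) * ℓ) := by positivity
    linarith
  refine lt_of_le_of_lt hfin (lt_of_lt_of_le ?_ l2)
  have k1 : β * B₁ ≤ κ / 16 * ‖W‖ := by
    calc β * B₁ ≤ (a + 2) * (‖W‖ * Real.exp (-(η * ℓ / 4))) := by
          gcongr
          linarith
      _ = ((a + 2) * Real.exp (-(η * ℓ / 4))) * ‖W‖ := by ring
      _ ≤ _ := by gcongr
  have k2 : B₂ * Real.sqrt (4 * Real.pi * (2 * t)) ≤ (‖W‖ * (1 / 16)) * (2 * κ) := by gcongr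
  have k3 : 0 < κ * ‖W‖ := by positivity
  linarith


end Pool.Agent.H487.MI
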