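import Pool.Agent.H487.NZ.Half

/-!
# The right half-line average as a function of its end point
-/

set_option autoImplicit false

open MeasureTheory Set Filter Topology
open scoped ComplexConjugate

namespace Pool.Agent.H487.MI

open NB NZ

lemma type0_ball {F : ℂ → ℂ} (h : Type0 F) (c : ℂ) {t : ℝ} (ht : 0 < t) :
    ∃ K : ℝ, 0 < K ∧ ∀ c' ∈ Metric.ball c 1, ∀ x : ℝ,
      ‖F (c' + x) * ((Real.exp (-((x - 0) ^ 2 / (4 * t))) : ℝ) : ℂ)‖ ≤ K * Real.exp (-(1 / (32 * t)) * x ^ 2) := by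
  obtain ⟨K, hK, hb⟩ := h (1 / (32 * t)) (by positivity)
  refine ⟨K * Real.exp (1 / (16 * t) * (‖c‖ + 1) ^ 2), by positivity, fun c' hc' x => ?_⟩
  rw [norm_mul, Complex.norm_real, Real.norm_of_nonneg (Real.exp_pos _).le]
  have h1 : ‖c' + x‖ ≤ (‖c‖ + 1) + |x| := by
    refine (norm_add_le _ _).trans ?_
    rw [Complex.norm_real, Real.norm_eq_abs]
    rw [Metric.mem_ball, dist_eq_norm] at hc'
    have := norm_le_norm_add_norm_sub' c' c
    linarith
  have h2 : ‖c' + x‖ ^ 2 ≤ 2 * (‖c‖ + 1) ^ 2 + 2 * x ^ 2 := by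
    have h3 := pow_le_pow_left₀ (norm_nonneg _) h1 2
    nlinarith [sq_nonneg (‖c‖ + 1 - |x|), sq_abs x]
  calc ‖F (c' + x)‖ * Real.exp (-((x - 0) ^ 2 / (4 * t))) ≤ (K * Real.exp (1 / (32 * t) * ‖c' + x‖ ^ 2)) * Real.exp (-((x - 0) ^ 2 / (4 * t))) := by
        gcongr
        exact hb _
    _ = K * Real.exp (1 / (32 * t) * ‖c' + x‖ ^ 2 + -((x - 0) ^ 2 / (4 * t))) := by rw [mul_assoc, ← Real.exp_add]
    _ ≤ K * Real.exp (1 / (16 * t) * (‖c‖ + 1) ^ 2 + -(1 / (32 * t)) * x ^ 2) := by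
        refine mul_le_mul_of_nonneg_left (Real.exp_le_exp.mpr ?_) hK.le
        have h3 : 1 / (32 * t) * ‖c' + x‖ ^ 2 ≤ 1 / (32 * t) * (2 * (‖c‖ + 1) ^ 2 + 2 * x ^ 2) := by gcongr
        have e1 : 1 / (32 * t) * (2 * (‖c‖ + 1) ^ 2 + 2 * x ^ 2) + -((x - 0) ^ 2 / (4 * t)) =
            1 / (16 * t) * (‖c‖ + 1) ^ 2 + -(1 / (32 * t)) * x ^ 2 - 5 / (32 * t) * x ^ 2 := by
          field_simp
          ring
        have e2 : 0 ≤ 5 / (32 * t) * x ^ 2 := by positivity
        linarith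
    _ = _ := by rw [Real.exp_add]; ring

theorem rr_c_deriv {F : ℂ → ℂ} (hd : Differentiable ℂ F) (h : Type0 F) {t : ℝ} (ht : 0 < t) (c : ℂ) :
    HasDerivAt (fun c => RR t F c 0) (RR t (deriv F) c 0) c := by
  have hd' : Differentiable ℂ (deriv F) := by
    have := diff_iter hd 1
    rwa [iteratedDeriv_one] at this
  have h' : Type0 (deriv F) := h.deriv hd
  obtain ⟨K, hK, hb⟩ := type0_ball h' c ht
  have hI : Integrable fun x : ℝ => K * Real.exp (-(1 / (32 * t)) * x ^ 2) :=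
    (integrable_exp_neg_mul_sq (by positivity)).const_mul K
  have key := hasDerivAt_integral_of_dominated_loc_of_deriv_le (μ := (volume : Measure ℝ).restrict (Ioi 0)) (𝕜 := ℂ)
    (F := fun (c : ℂ) (x : ℝ) => F (c + x) * ((Real.exp (-((x - 0) ^ 2 / (4 * t))) : ℝ) : ℂ))
    (F' := fun (c : ℂ) (x : ℝ) => deriv F (c + x) * ((Real.exp (-((x - 0) ^ 2 / (4 * t))) : ℝ) : ℂ))
    (x₀ := c) (s := Metric.ball c 1)
    (bound := fun x : ℝ => K * Real.exp (-(1 / (32 * t)) * x ^ 2))
    (Metric.ball_mem_nhds _ one_pos) (Eventually.of_forall fun c' => ?_) ?_ ?_ ?_ ?_ ?_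
  · exact key.2
  · exact (cont_line hd.continuous c' _ (by fun_prop)).aestronglyMeasurable
  · exact (line_integrable hd.continuous h c ht 0).integrableOn
  · exact (cont_line hd'.continuous c _ (by fun_prop)).aestronglyMeasurable
  · exact Eventually.of_forall fun x c' hc' => hb c' hc' x
  · exact hI.integrableOn
  · refine Eventually.of_forall fun x c' _ => ?_
    have h1 : HasDerivAt (fun c : ℂ => F (c + x)) (deriv F (c' + x)) c' := (hd (c' + x)).hasDerivAt.comp_add_const c' _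
    exact h1.mul_const _

theorem rr_parts {F : ℂ → ℂ} (hd : Differentiable ℂ F) (h : Type0 F) {t : ℝ} (ht : 0 < t) (c : ℂ) :
    RR t (deriv F) c 0 = RD t F c 0 - F c := by
  have hd' : Differentiable ℂ (deriv F) := by
    have := diff_iter hd 1
    rwa [iteratedDeriv_one] at this
  have h' : Type0 (deriv F) := h.deriv hd
  have i1 := line_integrable hd'.continuous h' c ht 0
  have i2 := rd_integrable hd.continuous h c ht 0
  have hder : ∀ x : ℝ, HasDerivAt (fun x : ℝ => F (c + x) * ((Real.exp (-((x - 0) ^ 2 / (4 * t))) : ℝ) : ℂ))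
      (deriv F (c + x) * ((Real.exp (-((x - 0) ^ 2 / (4 * t))) : ℝ) : ℂ) -
        F (c + x) * ((((x - 0) / (2 * t)) * Real.exp (-((x - 0) ^ 2 / (4 * t))) : ℝ) : ℂ)) x := by
    intro x
    have h1 : HasDerivAt (fun x : ℝ => c + (x : ℂ)) 1 x := by
      simpa using (Complex.ofRealCLM.hasDerivAt (x := x)).const_add c
    have h2 := (hd (c + x)).hasDerivAt.scomp x h1
    rw [one_smul] at h2
    have h3 : HasDerivAt (fun x : ℝ => -((x - 0) ^ 2 / (4 * t))) (-((x - 0) / (2 * t))) x := by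
      have h4 : HasDerivAt (fun x : ℝ => x - 0) 1 x := (hasDerivAt_id x).sub_const 0
      have h5 := ((h4.pow 2).div_const (4 * t)).neg
      refine h5.congr_deriv ?_
      field_simp
      push_cast
      ring
    have h4 := (h3.exp).ofReal_comp
    have h5 := h2.mul h4
    refine h5.congr_deriv ?_
    simp only [Function.comp_apply]
    push_cast
    ring
  have hlim : Tendsto (fun x : ℝ => F (c + x) * ((Real.exp (-((x - 0) ^ 2 / (4 * t))) : ℝ) : ℂ)) atTop (𝓝 0) := by
    obtain ⟨K, hK, hb⟩ := type0_ball h c ht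
    have h1 := hb c (Metric.mem_ball_self one_pos)
    rw [tendsto_zero_iff_norm_tendsto_zero]
    refine squeeze_zero (fun x => norm_nonneg _) h1 ?_
    have h2 : Tendsto (fun x : ℝ => (1 / (32 * t)) * x ^ 2) atTop atTop :=
      (tendsto_pow_atTop two_ne_zero).const_mul_atTop (by positivity)
    have h3 := (Real.tendsto_exp_neg_atTop_nhds_zero.comp h2).const_mul K
    rw [mul_zero] at h3
    refine h3.congr fun x => ?_
    simp only [Function.comp_apply]
    congr 2
    ring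
  have key := integral_Ioi_of_hasDerivAt_of_tendsto' (a := (0 : ℝ)) (fun x _ => hder x) (i1.sub i2).integrableOn hlim
  rw [integral_sub i1.integrableOn i2.integrableOn] at key
  have e0 : F (c + ((0 : ℝ) : ℂ)) * ((Real.exp (-(((0 : ℝ) - 0) ^ 2 / (4 * t))) : ℝ) : ℂ) = F c := by
    simp
  rw [e0] at key
  have e1 : RR t (deriv F) c 0 - RD t F c 0 = 0 - F c := key
  linear_combination e1

/-- derivative along the critical line -/
theorem rr_vert {F : ℂ → ℂ} (hd : Differentiable ℂ F) (h : Type0 F) {t : ℝ} (ht : 0 < t) (y : ℝ) :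
    HasDerivAt (fun y : ℝ => RR t F (1 / 2 + y * Complex.I) 0)
      (Complex.I * (RD t F (1 / 2 + y * Complex.I) 0 - F (1 / 2 + y * Complex.I))) y := by
  rw [← rr_parts hd h ht]
  have h1 : HasDerivAt (fun y : ℝ => 1 / 2 + (y : ℂ) * Complex.I) (1 * Complex.I) y :=
    ((Complex.ofRealCLM.hasDerivAt (x := y)).mul_const Complex.I).const_add _
  have h2 := (rr_c_deriv hd h ht (1 / 2 + y * Complex.I)).scomp y h1
  refine h2.congr_deriv ?_
  rw [smul_eq_mul, one_mul]

lemma rr_vert_cont {F : ℂ → ℂ} (hd : Differentiable ℂ F) (h : Type0 F) {t : ℝ} (ht : 0 < t) :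
    Continuous fun y : ℝ => Complex.I * (RD t F (1 / 2 + y * Complex.I) 0 - F (1 / 2 + y * Complex.I)) := by
  have hd' : Differentiable ℂ (deriv F) := by
    have := diff_iter hd 1
    rwa [iteratedDeriv_one] at this
  have h' : Type0 (deriv F) := h.deriv hd
  have h1 : Differentiable ℂ fun c => RR t (deriv F) c 0 := fun c => (rr_c_deriv hd' h' ht c).differentiableAt
  have h2 : Continuous fun y : ℝ => RR t (deriv F) (1 / 2 + y * Complex.I) 0 := h1.continuous.comp (by fun_prop)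
  have h3 := h2.const_mul Complex.I
  refine h3.congr fun y => ?_
  rw [rr_parts hd h ht]

end Pool.Agent.H487.MI
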