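import Pool.Agent.H487.MI.Mono

/-!
# Consequences of `XV`, and scaling of the heat flow
-/

set_option autoImplicit false

open MeasureTheory Set Filter Topology Metric
open scoped ComplexConjugate

namespace Pool.Agent.H487.MI

open NB NZ

variable {X : ℂ → ℂ} {a K M ℓ y τ β ε R η T₀ r₁ r : ℝ} {φ : ℝ → ℝ}

/-- no zeros of the heat flow to the right of the line -/
theorem xv_far (C : XV X a K M ℓ y τ β ε R η T₀ r₁ φ) (h0 : r₁ ≤ r) (h1 : η / 16 ≤ r) (h2 : r ≤ a) :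
    heat (τ / (2 * ℓ)) X (1 / 2 + y * Complex.I + r) ≠ 0 := by
  have h3 := left_small C h0 h1 h2
  obtain ⟨ε', hε', hfe⟩ := C.fe
  have hℓ := C.hℓ
  have hτ := C.hτ0
  have ht0 : 0 < τ / (2 * ℓ) := by positivity
  intro hzero
  rw [heat_halves C.diff.continuous C.slow.type0 hfe ht0 y r] at hzero
  have hκ : ((1 / Real.sqrt (4 * Real.pi * (τ / (2 * ℓ))) : ℝ) : ℂ) ≠ 0 := by
    have : 0 < Real.sqrt (4 * Real.pi * (τ / (2 * ℓ))) := Real.sqrt_pos.mpr (by positivity)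
    exact_mod_cast (one_div_pos.mpr this).ne'
  have h4 := (mul_eq_zero.mp hzero).resolve_left hκ
  have h5 : ‖RR (τ / (2 * ℓ)) X (1 / 2 + y * Complex.I) r‖ = ‖RR (τ / (2 * ℓ)) X (1 / 2 + y * Complex.I) (-r)‖ := by
    rw [eq_neg_of_add_eq_zero_left h4, norm_neg, norm_mul, hε', one_mul, RCLike.norm_conj]
  rw [h5] at h3
  exact lt_irrefl _ h3

/-- near the line the zeros of the heat flow are simple and on the line -/
theorem xv_near (C : XV X a K M ℓ y τ β ε R η T₀ r₁ φ) (h0 : r₁ ≤ -(η / 16)) (hr : |r| ≤ a)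
    (hz : heat (τ / (2 * ℓ)) X (1 / 2 + y * Complex.I + r) = 0) :
    r = 0 ∧ deriv (heat (τ / (2 * ℓ)) X) (1 / 2 + y * Complex.I) ≠ 0 := by
  obtain ⟨ε', hε', hfe⟩ := C.fe
  have hℓ := C.hℓ
  have hτ := C.hτ0
  have hη := C.hη
  exact zero_final C.diff C.slow hε' hfe (by positivity : 0 < τ / (2 * ℓ)) (r₀ := η / 16) (R := a) (by positivity)
    (fun r hr => re_pos C h0 hr) (fun r hr1 hr2 => left_small C (by linarith) hr1 hr2) hr hz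

/-- rescaled function around `1/2 + iy` -/
noncomputable def resc (F : ℂ → ℂ) (y ρ : ℝ) : ℂ → ℂ := fun z => F (1 / 2 + y * Complex.I + ρ * (z - 1 / 2))

lemma resc_pt (F : ℂ → ℂ) (y ρ u v : ℝ) : resc F y ρ (pt 0 u v) = F (pt y (ρ * u) (ρ * v)) := by
  unfold resc pt
  congr 1
  push_cast
  ring

lemma resc_diff {F : ℂ → ℂ} (hF : Differentiable ℂ F) (y ρ : ℝ) : Differentiable ℂ (resc F y ρ) :=
  hF.comp (by fun_prop)

lemma resc_fe {F : ℂ → ℂ} (h : ∃ ε : ℂ, ‖ε‖ = 1 ∧ ∀ s, F s = ε * conj (F (1 - conj s))) (y ρ : ℝ) :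
    ∃ ε : ℂ, ‖ε‖ = 1 ∧ ∀ s, resc F y ρ s = ε * conj (resc F y ρ (1 - conj s)) := by
  obtain ⟨ε, hε, hfe⟩ := h
  refine ⟨ε, hε, fun s => ?_⟩
  unfold resc
  rw [hfe]
  congr 3
  simp only [map_add, map_mul, map_sub, Complex.conj_ofReal, Complex.conj_I, map_div₀, map_one, map_ofNat]
  ring

lemma resc_type0 {F : ℂ → ℂ} (h : Type0 F) (y ρ : ℝ) : Type0 (resc F y ρ) := by
  intro c hc
  set d : ℝ := c / (2 * (ρ ^ 2 + 1)) with hd
  have hd0 : 0 < d := by positivity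
  obtain ⟨K, hK, hb⟩ := h d hd0
  set P : ℝ := ‖(1 / 2 + y * Complex.I : ℂ)‖ + |ρ| with hP
  refine ⟨K * Real.exp (2 * d * P ^ 2), by positivity, fun s => ?_⟩
  refine (hb _).trans ?_
  rw [mul_assoc, ← Real.exp_add]
  refine mul_le_mul_of_nonneg_left (Real.exp_le_exp.mpr ?_) hK.le
  have h1 : ‖(1 / 2 + y * Complex.I + ρ * (s - 1 / 2) : ℂ)‖ ≤ P + |ρ| * ‖s‖ := by
    have h2 := norm_add_le (1 / 2 + y * Complex.I : ℂ) ((ρ : ℂ) * (s - 1 / 2))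
    have h3 : ‖(ρ : ℂ) * (s - 1 / 2)‖ ≤ |ρ| * (‖s‖ + 1) := by
      rw [norm_mul, Complex.norm_real, Real.norm_eq_abs]
      refine mul_le_mul_of_nonneg_left ?_ (abs_nonneg _)
      refine (norm_sub_le _ _).trans ?_
      have : ‖(1 / 2 : ℂ)‖ ≤ 1 := by norm_num
      linarith
    rw [hP]
    linarith
  have h4 := pow_le_pow_left₀ (norm_nonneg _) h1 2
  have h5 : (P + |ρ| * ‖s‖) ^ 2 ≤ 2 * P ^ 2 + 2 * (ρ ^ 2 * ‖s‖ ^ 2) := by
    have h6 := sq_nonneg (P - |ρ| * ‖s‖)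
    have h7 : (|ρ| * ‖s‖) ^ 2 = ρ ^ 2 * ‖s‖ ^ 2 := by rw [mul_pow, sq_abs]
    nlinarith
  have h6 : d * (2 * (ρ ^ 2 * ‖s‖ ^ 2)) ≤ c * ‖s‖ ^ 2 := by
    have h7 : d * (2 * ρ ^ 2) ≤ c := by
      rw [hd, div_mul_eq_mul_div, div_le_iff₀ (by positivity)]
      nlinarith
    calc d * (2 * (ρ ^ 2 * ‖s‖ ^ 2)) = d * (2 * ρ ^ 2) * ‖s‖ ^ 2 := by ring
      _ ≤ c * ‖s‖ ^ 2 := by gcongr
  calc d * ‖(1 / 2 + y * Complex.I + ρ * (s - 1 / 2) : ℂ)‖ ^ 2 ≤ d * (P + |ρ| * ‖s‖) ^ 2 := by gcongr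
    _ ≤ d * (2 * P ^ 2 + 2 * (ρ ^ 2 * ‖s‖ ^ 2)) := by gcongr
    _ ≤ 2 * d * P ^ 2 + c * ‖s‖ ^ 2 := by linarith

/-- scaling of the heat flow -/
lemma heat_resc (F : ℂ → ℂ) {y ρ t : ℝ} (hρ : 0 < ρ) (ht : 0 < t) (s : ℂ) :
    heat t (resc F y ρ) s = heat (ρ ^ 2 * t) F (1 / 2 + y * Complex.I + ρ * (s - 1 / 2)) := by
  unfold heat resc
  have e1 : (∫ x : ℝ, F (1 / 2 + y * Complex.I + ρ * (s - 1 / 2) + x) * ((Real.exp (-(x ^ 2 / (4 * (ρ ^ 2 * t)))) : ℝ) : ℂ)) =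
      ρ • ∫ x : ℝ, F (1 / 2 + y * Complex.I + ρ * (s + x - 1 / 2)) * ((Real.exp (-(x ^ 2 / (4 * t))) : ℝ) : ℂ) := by
    have h := Measure.integral_comp_mul_left (fun x : ℝ => F (1 / 2 + y * Complex.I + ρ * (s - 1 / 2) + x) *
      ((Real.exp (-(x ^ 2 / (4 * (ρ ^ 2 * t)))) : ℝ) : ℂ)) ρ
    rw [abs_of_pos (inv_pos.mpr hρ)] at h
    have e2 : (∫ x : ℝ, F (1 / 2 + y * Complex.I + ρ * (s + x - 1 / 2)) * ((Real.exp (-(x ^ 2 / (4 * t))) : ℝ) : ℂ)) =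
        ∫ x : ℝ, F (1 / 2 + y * Complex.I + ρ * (s - 1 / 2) + ((ρ * x : ℝ) : ℂ)) *
          ((Real.exp (-((ρ * x) ^ 2 / (4 * (ρ ^ 2 * t)))) : ℝ) : ℂ) := by
      refine integral_congr_ae (Eventually.of_forall fun x => ?_)
      simp only []
      congr 2
      · push_cast
        ring
      · congr 2
        field_simp
    rw [e2, h, smul_smul, mul_inv_cancel₀ hρ.ne', one_smul]
  rw [e1, Complex.real_smul, ← mul_assoc, ← Complex.ofReal_mul]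
  congr 2
  have e3 : Real.sqrt (4 * Real.pi * (ρ ^ 2 * t)) = ρ * Real.sqrt (4 * Real.pi * t) := by
    rw [show 4 * Real.pi * (ρ ^ 2 * t) = ρ ^ 2 * (4 * Real.pi * t) by ring, Real.sqrt_mul (by positivity),
      Real.sqrt_sq hρ.le]
  rw [e3]
  have : Real.sqrt (4 * Real.pi * t) ≠ 0 := (Real.sqrt_pos.mpr (by positivity)).ne'
  field_simp

end Pool.Agent.H487.MI
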