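import Mathlib

/-!
Statements of the project MI (helper487), part 0: plain complex analysis.
-/

set_option autoImplicit false

namespace Pool.Agent.H487.MI

/-- the scale `R` (natural units `1 / L`) around `1/2 + it` is regular: no zeros with `Re z ≥ c₀ R` and `f`
is nearly maximal at the reference point `z = R / 2` -/
def GS (f : ℂ → ℂ) (t L ε c₀ R : ℝ) : Prop :=
  (∀ z : ℂ, c₀ * R ≤ z.re → ‖z‖ ≤ R - 4 → f (1 / 2 + (t : ℂ) * Complex.I + z / (L : ℝ)) ≠ 0) ∧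
  (∀ z : ℂ, 0 ≤ z.re → ‖z‖ ≤ R - 4 → ‖f (1 / 2 + (t : ℂ) * Complex.I + z / (L : ℝ))‖ ≤
    Real.exp (ε * R) * ‖f (1 / 2 + (t : ℂ) * Complex.I + (R / 2 / L : ℝ))‖)

/-- SUP: from mean squares on circles to the number of members which are large somewhere in a disc -/
def S_SUP : Prop := ∀ (ι : Type) [Fintype ι] (g : ι → ℂ → ℂ), (∀ i, Differentiable ℂ (g i)) →
  ∀ (K : Finset ℂ) (r ρ B a : ℝ), 0 < r → 2 * r ≤ ρ → 0 < a →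
  (∀ k ∈ K, ∀ w : ℂ, ‖w - k‖ = ρ → ∑ i, ‖g i w‖ ^ 2 ≤ B) →
  (Nat.card {i // ∃ k ∈ K, ∃ z : ℂ, ‖z - k‖ ≤ r ∧ a ≤ ‖g i z‖ ^ 2} : ℝ) ≤ K.card * (2 * B / a)

/-- GRID: a grid of points with distance `1/2` -/
def S_GRID : Prop := ∀ R : ℝ, 1 ≤ R → ∃ K : Finset ℂ, (K.card : ℝ) ≤ 100 * R ^ 2 ∧
  ∀ z : ℂ, 0 ≤ z.re → ‖z‖ ≤ R → ∃ k ∈ K, ‖z - k‖ ≤ 1 ∧ 0 ≤ k.re ∧ z.re - 1 ≤ k.re ∧ ‖k‖ ≤ ‖z‖ + 1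

/-- LD: at one scale the logarithmic derivative is small -/
def S_LD : Prop := ∀ ε' : ℝ, 0 < ε' → ∃ ε x₀ : ℝ, 0 < ε ∧ 16 ≤ x₀ ∧
  ∀ f : ℂ → ℂ, Differentiable ℂ f → ∀ t L R x : ℝ, 0 < L → x₀ ≤ x → 4096 * x ≤ R → R ≤ 6144 * x →
  GS f t L ε (1 / 30000) R → ∀ s : ℂ, s.re = 1 / 2 + x / L → |s.im - t| ≤ 33 * x / L →
    f s ≠ 0 ∧ ‖logDeriv f s‖ ≤ ε' * L

/-- UG: growth relative to the point `4 x'` -/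
def S_UG : Prop := ∀ ε' : ℝ, 0 < ε' → ∃ ε x₀ : ℝ, 0 < ε ∧ 16 ≤ x₀ ∧
  ∀ f : ℂ → ℂ, Differentiable ℂ f → ∀ t L κ c₁ : ℝ, 0 < L → 0 < c₁ → x₀ ≤ κ →
  (∀ j : ℕ, (3 / 2 : ℝ) ^ j * κ ≤ c₁ * L → GS f t L ε (1 / 30000) ((3 / 2 : ℝ) ^ j * κ)) →
  ∀ x' : ℝ, κ ≤ x' → 10 ^ 6 * x' ≤ c₁ * L → ∀ z : ℂ, 0 ≤ z.re → 10 ^ 5 * ‖z‖ ≤ c₁ * L →
  ∀ w : ℝ, |w| ≤ 1 →
    f (1 / 2 + (t : ℂ) * Complex.I + (4 * x' + w * Complex.I) / (L : ℝ)) ≠ 0 ∧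
    ‖f (1 / 2 + (t : ℂ) * Complex.I + z / (L : ℝ))‖ ≤ Real.exp (ε' * (x' + ‖z‖)) *
      ‖f (1 / 2 + (t : ℂ) * Complex.I + (4 * x' + w * Complex.I) / (L : ℝ))‖

end Pool.Agent.H487.MI
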